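import Mathlib
import Pool.Agent.TH278.DX.Defs
set_option autoImplicit false

namespace Pool.Agent.TH106.J4648

section
variable {H : Type} [NormedAddCommGroup H] [InnerProductSpace ℂ H]

abbrev E (H : Type) [NormedAddCommGroup H] [InnerProductSpace ℂ H] : Type := WithLp 2 (H × H)

noncomputable def i1 : H →L[ℂ] E H :=
  ((WithLp.prodContinuousLinearEquiv 2 ℂ H H).symm : (H × H) →L[ℂ] E H).comp
    (ContinuousLinearMap.inl ℂ H H)
noncomputable def i2 : H →L[ℂ] E H :=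
  ((WithLp.prodContinuousLinearEquiv 2 ℂ H H).symm : (H × H) →L[ℂ] E H).comp
    (ContinuousLinearMap.inr ℂ H H)
noncomputable def p1 : E H →L[ℂ] H :=
  (ContinuousLinearMap.fst ℂ H H).comp (WithLp.prodContinuousLinearEquiv 2 ℂ H H : E H →L[ℂ] (H × H))
noncomputable def p2 : E H →L[ℂ] H :=
  (ContinuousLinearMap.snd ℂ H H).comp (WithLp.prodContinuousLinearEquiv 2 ℂ H H : E H →L[ℂ] (H × H))

/-- (x, y) ↦ (A x, A y) -/
noncomputable def dg (A : H →L[ℂ] H) : E H →L[ℂ] E H :=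
  (i1.comp A).comp p1 + (i2.comp A).comp p2

/-- (x, y) ↦ (X y, Y x) -/
noncomputable def off (X Y : H →L[ℂ] H) : E H →L[ℂ] E H :=
  (i1.comp X).comp p2 + (i2.comp Y).comp p1

lemma i1_fst (x : H) : (i1 x : E H).fst = x := rfl
lemma i1_snd (x : H) : (i1 x : E H).snd = 0 := rfl
lemma i2_fst (x : H) : (i2 x : E H).fst = 0 := rfl
lemma i2_snd (x : H) : (i2 x : E H).snd = x := rfl
lemma p1_apply (v : E H) : p1 v = v.fst := rfl
lemma p2_apply (v : E H) : p2 v = v.snd := rfl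

lemma dg_fst (A : H →L[ℂ] H) (v : E H) : (dg A v).fst = A v.fst := by
  change A v.fst + 0 = _
  simp
lemma dg_snd (A : H →L[ℂ] H) (v : E H) : (dg A v).snd = A v.snd := by
  change 0 + A v.snd = _
  simp
lemma off_fst (A B : H →L[ℂ] H) (v : E H) : (off A B v).fst = A v.snd := by
  change A v.snd + 0 = _
  simp
lemma off_snd (A B : H →L[ℂ] H) (v : E H) : (off A B v).snd = B v.fst := by
  change 0 + B v.fst = _
  simp

lemma ext2 {v w : E H} (h1 : v.fst = w.fst) (h2 : v.snd = w.snd) : v = w := by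
  apply (WithLp.ofLp_injective 2)
  exact Prod.ext h1 h2

lemma dg_one : dg (1 : H →L[ℂ] H) = 1 := by
  ext v
  exact ext2 (by rw [dg_fst]; rfl) (by rw [dg_snd]; rfl)

lemma dg_mul (A B : H →L[ℂ] H) : dg (A * B) = dg A * dg B := by
  ext v
  refine ext2 ?_ ?_
  · rw [mul_apply_eq_comp, dg_fst, dg_fst, dg_fst]; rfl
  · rw [mul_apply_eq_comp, dg_snd, dg_snd, dg_snd]; rfl

lemma off_norm (X Y : H →L[ℂ] H) (d : ℝ) (hX : ‖X‖ ≤ d) (hY : ‖Y‖ ≤ d) : ‖off X Y‖ ≤ d := by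
  have hd : 0 ≤ d := le_trans (norm_nonneg _) hX
  refine ContinuousLinearMap.opNorm_le_bound _ hd fun v => ?_
  rw [← sq_le_sq₀ (norm_nonneg _) (by positivity), WithLp.prod_norm_sq_eq_of_L2, off_fst, off_snd,
    mul_pow, WithLp.prod_norm_sq_eq_of_L2]
  have h1 : ‖X v.snd‖ ≤ d * ‖v.snd‖ := X.le_of_opNorm_le hX _
  have h2 : ‖Y v.fst‖ ≤ d * ‖v.fst‖ := Y.le_of_opNorm_le hY _
  have h3 : ‖X v.snd‖ ^ 2 ≤ (d * ‖v.snd‖) ^ 2 := pow_le_pow_left₀ (norm_nonneg _) h1 2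
  have h4 : ‖Y v.fst‖ ^ 2 ≤ (d * ‖v.fst‖) ^ 2 := pow_le_pow_left₀ (norm_nonneg _) h2 2
  nlinarith

lemma off_dg (X Y A : H →L[ℂ] H) :
    dg A * off X Y - off X Y * dg A = off (A * X - X * A) (A * Y - Y * A) := by
  ext v
  refine ext2 ?_ ?_
  · change (dg A (off X Y v)).fst - (off X Y (dg A v)).fst = _
    rw [dg_fst, off_fst, off_fst, dg_snd, off_fst]; rfl
  · change (dg A (off X Y v)).snd - (off X Y (dg A v)).snd = _
    rw [dg_snd, off_snd, off_snd, dg_fst, off_snd]; rfl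

lemma dg_i2 (A : H →L[ℂ] H) : (dg A).comp i2 = i2.comp A := by
  ext x
  exact ext2 (by
    change (dg A (i2 x)).fst = (i2 (A x)).fst
    rw [dg_fst, i2_fst, i2_fst, map_zero]) (by
    change (dg A (i2 x)).snd = (i2 (A x)).snd
    rw [dg_snd, i2_snd, i2_snd])

lemma p1_dg (A : H →L[ℂ] H) : p1.comp (dg A) = A.comp p1 := by
  ext v
  change (dg A v).fst = A v.fst
  rw [dg_fst]

lemma p1_norm (v : E H) : ‖p1 v‖ ≤ ‖v‖ := by
  rw [← sq_le_sq₀ (norm_nonneg _) (norm_nonneg _), WithLp.prod_norm_sq_eq_of_L2, p1_apply]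
  nlinarith [sq_nonneg ‖v.snd‖]

lemma i2_norm (x : H) : ‖(i2 x : E H)‖ = ‖x‖ := by
  rw [← sq_eq_sq₀ (norm_nonneg _) (norm_nonneg _), WithLp.prod_norm_sq_eq_of_L2, i2_fst, i2_snd]
  simp

lemma corner_norm (C : E H →L[ℂ] E H) : ‖(p1.comp C).comp i2‖ ≤ ‖C‖ := by
  refine ContinuousLinearMap.opNorm_le_bound _ (ContinuousLinearMap.opNorm_nonneg C) fun x => ?_
  calc ‖p1 (C (i2 x))‖ ≤ ‖C (i2 x)‖ := p1_norm _
    _ ≤ ‖C‖ * ‖(i2 x : E H)‖ := C.le_opNorm _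
    _ = ‖C‖ * ‖x‖ := by rw [i2_norm]

variable [CompleteSpace H]

lemma dg_star (A : H →L[ℂ] H) : star (dg A) = dg (star A) := by
  rw [ContinuousLinearMap.star_eq_adjoint, ContinuousLinearMap.star_eq_adjoint]
  symm
  rw [ContinuousLinearMap.eq_adjoint_iff]
  intro v w
  rw [WithLp.prod_inner_apply, WithLp.prod_inner_apply]
  change inner ℂ (dg _ v).fst w.fst + inner ℂ (dg _ v).snd w.snd
    = inner ℂ v.fst (dg A w).fst + inner ℂ v.snd (dg A w).snd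
  rw [dg_fst, dg_snd, dg_fst, dg_snd, ContinuousLinearMap.adjoint_inner_left,
    ContinuousLinearMap.adjoint_inner_left]

lemma off_star (X Y : H →L[ℂ] H) : star (off X Y) = off (star Y) (star X) := by
  rw [ContinuousLinearMap.star_eq_adjoint, ContinuousLinearMap.star_eq_adjoint,
    ContinuousLinearMap.star_eq_adjoint]
  symm
  rw [ContinuousLinearMap.eq_adjoint_iff]
  intro v w
  rw [WithLp.prod_inner_apply, WithLp.prod_inner_apply]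
  change inner ℂ (off _ _ v).fst w.fst + inner ℂ (off _ _ v).snd w.snd
    = inner ℂ v.fst (off X Y w).fst + inner ℂ v.snd (off X Y w).snd
  rw [off_fst, off_snd, off_fst, off_snd, ContinuousLinearMap.adjoint_inner_left,
    ContinuousLinearMap.adjoint_inner_left, add_comm]

lemma dg_unitary {A : H →L[ℂ] H} (hA : A ∈ unitary (H →L[ℂ] H)) :
    dg A ∈ unitary (E H →L[ℂ] E H) := by
  rw [Unitary.mem_iff] at hA ⊢
  rw [dg_star, ← dg_mul, ← dg_mul, hA.1, hA.2, dg_one]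
  exact ⟨rfl, rfl⟩

end

theorem dist_all {G : Type} [Group G] (K : ℝ)
    (h : ∀ (H : Type) [NormedAddCommGroup H] [InnerProductSpace ℂ H] [CompleteSpace H]
      (σ : G →* (H →L[ℂ] H)ˣ), (∀ g, ((σ g : (H →L[ℂ] H)ˣ) : H →L[ℂ] H) ∈ unitary (H →L[ℂ] H)) →
      ∀ (T : H →L[ℂ] H) (d : ℝ), IsSelfAdjoint T →
      (∀ g, ‖((σ g : (H →L[ℂ] H)ˣ) : H →L[ℂ] H) * T - T * ((σ g : (H →L[ℂ] H)ˣ) : H →L[ℂ] H)‖ ≤ d) →
      Metric.infDist T {C : H →L[ℂ] H | ∀ g, C * ((σ g : (H →L[ℂ] H)ˣ) : H →L[ℂ] H) =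
        ((σ g : (H →L[ℂ] H)ˣ) : H →L[ℂ] H) * C} ≤ K * d) :
    ∀ (H : Type) [NormedAddCommGroup H] [InnerProductSpace ℂ H] [CompleteSpace H]
      (σ : G →* (H →L[ℂ] H)ˣ), (∀ g, ((σ g : (H →L[ℂ] H)ˣ) : H →L[ℂ] H) ∈ unitary (H →L[ℂ] H)) →
      ∀ (T : H →L[ℂ] H) (d : ℝ),
      (∀ g, ‖((σ g : (H →L[ℂ] H)ˣ) : H →L[ℂ] H) * T - T * ((σ g : (H →L[ℂ] H)ˣ) : H →L[ℂ] H)‖ ≤ d) →
      Metric.infDist T {C : H →L[ℂ] H | ∀ g, C * ((σ g : (H →L[ℂ] H)ˣ) : H →L[ℂ] H) =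
        ((σ g : (H →L[ℂ] H)ˣ) : H →L[ℂ] H) * C} ≤ K * d := by
  intro H _ _ _ σ hσ T d hT
  -- the doubled representation
  let σ0 : G →* (E H →L[ℂ] E H) :=
    { toFun := fun g => dg ((σ g : (H →L[ℂ] H)ˣ) : H →L[ℂ] H)
      map_one' := by rw [map_one, Units.val_one, dg_one]
      map_mul' := fun a b => by rw [map_mul, Units.val_mul, dg_mul] }
  have hσ0 : ∀ g, ((σ0.toHomUnits g : (E H →L[ℂ] E H)ˣ) : E H →L[ℂ] E H)
      = dg ((σ g : (H →L[ℂ] H)ˣ) : H →L[ℂ] H) := fun g => rfl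
  have hstar : ∀ g, star ((σ g : (H →L[ℂ] H)ˣ) : H →L[ℂ] H)
      = ((σ g⁻¹ : (H →L[ℂ] H)ˣ) : H →L[ℂ] H) := by
    intro g
    have h1 := (Unitary.mem_iff.1 (hσ g)).1
    have h2 : ((σ g : (H →L[ℂ] H)ˣ) : H →L[ℂ] H) * ((σ g⁻¹ : (H →L[ℂ] H)ˣ) : H →L[ℂ] H) = 1 := by
      rw [← Units.val_mul, ← map_mul, mul_inv_cancel, map_one, Units.val_one]
    calc star ((σ g : (H →L[ℂ] H)ˣ) : H →L[ℂ] H)
        = star ((σ g : (H →L[ℂ] H)ˣ) : H →L[ℂ] H) *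
          (((σ g : (H →L[ℂ] H)ˣ) : H →L[ℂ] H) * ((σ g⁻¹ : (H →L[ℂ] H)ˣ) : H →L[ℂ] H)) := by
          rw [h2, mul_one]
      _ = _ := by rw [← mul_assoc, h1, one_mul]
  have hsa : IsSelfAdjoint (off T (star T)) := by
    rw [isSelfAdjoint_iff, off_star, star_star]
  have hd2 : ∀ g, ‖((σ0.toHomUnits g : (E H →L[ℂ] E H)ˣ) : E H →L[ℂ] E H) * off T (star T)
      - off T (star T) * ((σ0.toHomUnits g : (E H →L[ℂ] E H)ˣ) : E H →L[ℂ] E H)‖ ≤ d := by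
    intro g
    rw [hσ0, off_dg]
    refine off_norm _ _ d (hT g) ?_
    have e : ((σ g : (H →L[ℂ] H)ˣ) : H →L[ℂ] H) * star T - star T * ((σ g : (H →L[ℂ] H)ˣ) : H →L[ℂ] H)
        = - star (((σ g⁻¹ : (H →L[ℂ] H)ˣ) : H →L[ℂ] H) * T
          - T * ((σ g⁻¹ : (H →L[ℂ] H)ˣ) : H →L[ℂ] H)) := by
      rw [← hstar g, star_sub, star_mul, star_mul, star_star]
      abel
    rw [e, norm_neg, norm_star]
    exact hT g⁻¹
  have main := h (E H) σ0.toHomUnits (fun g => by rw [hσ0]; exact dg_unitary (hσ g))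
    (off T (star T)) d hsa hd2
  refine le_trans ?_ main
  refine le_of_forall_pos_lt_add fun ε hε => ?_
  have hne : {C : E H →L[ℂ] E H | ∀ g, C * ((σ0.toHomUnits g : (E H →L[ℂ] E H)ˣ) : E H →L[ℂ] E H) =
        ((σ0.toHomUnits g : (E H →L[ℂ] E H)ˣ) : E H →L[ℂ] E H) * C}.Nonempty :=
    ⟨0, fun g => by rw [zero_mul, mul_zero]⟩
  obtain ⟨C2, hC2, hlt⟩ := (Metric.infDist_lt_iff hne).1 (lt_add_of_pos_right
    (Metric.infDist (off T (star T)) {C : E H →L[ℂ] E H | ∀ g,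
      C * ((σ0.toHomUnits g : (E H →L[ℂ] E H)ˣ) : E H →L[ℂ] E H) =
        ((σ0.toHomUnits g : (E H →L[ℂ] E H)ˣ) : E H →L[ℂ] E H) * C}) hε)
  refine lt_of_le_of_lt ?_ hlt
  have hmem : (p1.comp C2).comp i2 ∈ {C : H →L[ℂ] H | ∀ g, C * ((σ g : (H →L[ℂ] H)ˣ) : H →L[ℂ] H) =
        ((σ g : (H →L[ℂ] H)ˣ) : H →L[ℂ] H) * C} := by
    intro g
    have hg : C2 * dg ((σ g : (H →L[ℂ] H)ˣ) : H →L[ℂ] H)
      = dg ((σ g : (H →L[ℂ] H)ˣ) : H →L[ℂ] H) * C2 := hC2 g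
    ext x
    have a1 : (i2 (((σ g : (H →L[ℂ] H)ˣ) : H →L[ℂ] H) x) : E H)
        = dg ((σ g : (H →L[ℂ] H)ˣ) : H →L[ℂ] H) (i2 x) := by
      have := congrArg (fun F : H →L[ℂ] E H => F x) (dg_i2 ((σ g : (H →L[ℂ] H)ˣ) : H →L[ℂ] H))
      exact this.symm
    have a2 : C2 (dg ((σ g : (H →L[ℂ] H)ˣ) : H →L[ℂ] H) (i2 x))
        = dg ((σ g : (H →L[ℂ] H)ˣ) : H →L[ℂ] H) (C2 (i2 x)) :=
      congrArg (fun F : E H →L[ℂ] E H => F (i2 x)) hg
    change p1 (C2 (i2 (((σ g : (H →L[ℂ] H)ˣ) : H →L[ℂ] H) x)))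
      = ((σ g : (H →L[ℂ] H)ˣ) : H →L[ℂ] H) (p1 (C2 (i2 x)))
    rw [a1, a2, p1_apply, p1_apply, dg_fst]
  refine le_trans (Metric.infDist_le_dist_of_mem hmem) ?_
  rw [dist_eq_norm, dist_eq_norm]
  have e : T - (p1.comp C2).comp i2 = (p1.comp (off T (star T) - C2)).comp i2 := by
    ext x
    change T x - p1 (C2 (i2 x)) = p1 (off T (star T) (i2 x) - C2 (i2 x))
    rw [map_sub, p1_apply (off T (star T) (i2 x)), off_fst, i2_snd]
  rw [e]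
  exact corner_norm _

end Pool.Agent.TH106.J4648
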