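import Mathlib

/-!
# The free group of rank two has infinite commutator width

The counting function of the two-letter word `a b` is a quasi-homomorphism which is bounded on
commutators and unbounded on the powers of `[a, b]`.
-/

set_option autoImplicit false

namespace Pool.Agent.TH106.FreeCW

open FreeGroup

abbrev Ltr := Bool × Bool

/-- weight of an adjacent pair of letters -/
def f (x y : Ltr) : ℤ :=
  if x = (false, true) ∧ y = (true, true) then 1
  else if x = (true, false) ∧ y = (false, false) then -1 else 0

lemma f_abs (x y : Ltr) : |f x y| ≤ 1 := by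
  unfold f
  split_ifs <;> simp

lemma f_inv (x y : Ltr) : f (y.1, !y.2) (x.1, !x.2) = - f x y := by
  revert x y
  decide

/-- the counting function on words -/
def c : List Ltr → ℤ
  | [] => 0
  | [_] => 0
  | x :: y :: L => f x y + c (y :: L)

lemma c_cons_cons (x y : Ltr) (L : List Ltr) : c (x :: y :: L) = f x y + c (y :: L) := rfl

lemma c_append (u v : List Ltr) : |c (u ++ v) - c u - c v| ≤ 1 := by
  induction u with
  | nil => simp [c]
  | cons x u ih =>
    cases u with
    | nil =>
      cases v with
      | nil => simp [c]
      | cons y v =>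
        simp only [List.cons_append, List.nil_append, c_cons_cons]
        have : c [x] = 0 := rfl
        rw [this]
        have h := f_abs x y
        have e : f x y + c (y :: v) - 0 - c (y :: v) = f x y := by ring
        rw [e]; exact h
    | cons y u =>
      simp only [List.cons_append, c_cons_cons] at ih ⊢
      have e : f x y + c (y :: (u ++ v)) - (f x y + c (y :: u)) - c v =
        c (y :: (u ++ v)) - c (y :: u) - c v := by ring
      rw [e]; exact ih

lemma c_concat (u : List Ltr) (x y : Ltr) : c (u ++ [x] ++ [y]) = c (u ++ [x]) + f x y := by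
  induction u with
  | nil => simp [c]
  | cons z u ih =>
    cases u with
    | nil => simp [c]
    | cons z' u =>
      simp only [List.cons_append, c_cons_cons] at ih ⊢
      rw [ih]; ring

lemma c_invRev (u : List Ltr) : c (invRev u) = - c u := by
  induction u with
  | nil => simp [c]
  | cons x u ih =>
    cases u with
    | nil => simp [c, invRev]
    | cons y u =>
      have e1 : invRev (x :: y :: u) = invRev u ++ [(y.1, !y.2)] ++ [(x.1, !x.2)] := by
        simp [invRev]
      have e2 : invRev (y :: u) = invRev u ++ [(y.1, !y.2)] := by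
        simp [invRev]
      rw [e1, c_concat, ← e2, ih, c_cons_cons, f_inv]
      ring

/-- cancellation in a product of two reduced words -/
lemma cancel (B : List Ltr) : ∀ A : List Ltr, IsReduced A → IsReduced B →
    ∃ u v w, A = u ++ v ∧ B = invRev v ++ w ∧ reduce (A ++ B) = u ++ w := by
  induction B with
  | nil =>
    intro A hA _
    exact ⟨A, [], [], by simp, by simp, by simpa using hA.reduce_eq⟩
  | cons b B ih =>
    intro A hA hB
    rcases List.eq_nil_or_concat A with rfl | ⟨A', a, rfl⟩
    · exact ⟨[], [], b :: B, by simp, by simp, by simpa using hB.reduce_eq⟩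
    · simp only [List.concat_eq_append] at hA ⊢
      by_cases h : a.1 = b.1 → a.2 = b.2
      · refine ⟨A' ++ [a], [], b :: B, by simp, by simp, ?_⟩
        have hred : IsReduced (A' ++ [a] ++ b :: B) := by
          have := IsReduced.append_overlap (L₁ := A') (L₂ := [a]) (L₃ := b :: B) hA
            (by rw [List.singleton_append, isReduced_cons_cons]; exact ⟨h, hB⟩) (by simp)
          exact this
        exact hred.reduce_eq
      · push Not at h
        obtain ⟨h1, h2⟩ := h
        have hA' : IsReduced A' := List.IsChain.left_of_append hA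
        have hB' : IsReduced B := List.IsChain.tail hB
        obtain ⟨u, v, w, e1, e2, e3⟩ := ih A' hA' hB'
        have hb : b = (a.1, !a.2) := by
          rcases a with ⟨a1, a2⟩
          rcases b with ⟨b1, b2⟩
          simp only at h1 h2
          subst h1
          cases a2 <;> cases b2 <;> simp_all
        refine ⟨u, v ++ [a], w, by rw [e1]; simp, ?_, ?_⟩
        · rw [e2, hb]; simp [invRev]
        · rw [← e3]
          apply reduce.eq_of_red
          rw [hb, List.append_assoc]
          apply Red.Step.to_red
          exact Red.Step.not (L₁ := A') (L₂ := B) (x := a.1) (b := a.2)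

/-- the counting quasi-homomorphism -/
def q (x : FreeGroup Bool) : ℤ := c x.toWord

lemma q_inv (x : FreeGroup Bool) : q x⁻¹ = - q x := by
  unfold q
  rw [toWord_inv, c_invRev]

lemma q_mul (x y : FreeGroup Bool) : |q (x * y) - q x - q y| ≤ 3 := by
  obtain ⟨u, v, w, e1, e2, e3⟩ := cancel y.toWord x.toWord isReduced_toWord isReduced_toWord
  unfold q
  rw [toWord_mul, e3, e1, e2]
  have h1 := abs_le.1 (c_append u w)
  have h2 := abs_le.1 (c_append u v)
  have h3 := abs_le.1 (c_append (invRev v) w)
  have h4 := c_invRev v
  rw [abs_le]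
  constructor <;> linarith [h1.1, h1.2, h2.1, h2.2, h3.1, h3.2]

lemma q_commutator (x y : FreeGroup Bool) : |q (x * y * x⁻¹ * y⁻¹)| ≤ 9 := by
  have h1 := abs_le.1 (q_mul x y)
  have h2 := abs_le.1 (q_mul (x * y) x⁻¹)
  have h3 := abs_le.1 (q_mul (x * y * x⁻¹) y⁻¹)
  rw [q_inv] at h2 h3
  rw [abs_le]
  constructor <;> linarith [h1.1, h1.2, h2.1, h2.2, h3.1, h3.2]

lemma q_prod (l : List (FreeGroup Bool)) (hl : ∀ x ∈ l, x ∈ commutatorSet (FreeGroup Bool)) :
    |q l.prod| ≤ 12 * l.length := by
  induction l with
  | nil => simp [q, c]
  | cons x l ih =>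
    have ih' := abs_le.1 (ih fun z hz => hl z (List.mem_cons_of_mem _ hz))
    obtain ⟨a, b, rfl⟩ := hl x List.mem_cons_self
    have h1 := abs_le.1 (q_commutator a b)
    have h2 := abs_le.1 (q_mul (a * b * a⁻¹ * b⁻¹) l.prod)
    rw [List.prod_cons, List.length_cons, commutatorElement_def]
    rw [abs_le]
    push_cast
    constructor <;> linarith [h1.1, h1.2, h2.1, h2.2, ih'.1, ih'.2]

/-- the word of the commutator of the two generators -/
def kw : List Ltr := [(false, true), (true, true), (false, false), (true, false)]

lemma c_pow (n : ℕ) : c (List.replicate n kw).flatten = n ∧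
    IsReduced (List.replicate n kw).flatten ∧
    (n ≠ 0 → ∃ L, (List.replicate n kw).flatten = (false, true) :: L) := by
  induction n with
  | zero => simp [c]
  | succ n ih =>
    obtain ⟨h1, h2, h3⟩ := ih
    rw [List.replicate_succ, List.flatten_cons]
    rcases Nat.eq_zero_or_pos n with rfl | hn
    · simp only [List.replicate_zero, List.flatten_nil, List.append_nil]
      refine ⟨by decide, ?_, fun _ => ⟨_, rfl⟩⟩
      unfold FreeGroup.IsReduced kw
      decide
    · obtain ⟨L, hL⟩ := h3 (by omega)
      rw [hL] at h1 h2 ⊢
      refine ⟨?_, ?_, fun _ => ⟨_, rfl⟩⟩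
      · simp only [kw, List.cons_append, List.nil_append, c_cons_cons]
        rw [h1]
        simp [f]
        ring
      · simp only [kw, List.cons_append, List.nil_append, isReduced_cons_cons]
        exact ⟨by simp, by simp, by simp, by simp, h2⟩

lemma q_pow (n : ℕ) :
    q ((of false * of true * (of false)⁻¹ * (of true)⁻¹ : FreeGroup Bool) ^ n) = n := by
  have e : (of false * of true * (of false)⁻¹ * (of true)⁻¹ : FreeGroup Bool) = mk kw := rfl
  unfold q
  rw [e, pow_mk, toWord_mk, (c_pow n).2.1.reduce_eq, (c_pow n).1]

/-- the free group of rank two has infinite commutator width -/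
theorem infinite_width : ¬ ∃ n : ℕ, ∀ g ∈ commutator (FreeGroup Bool),
    ∃ l : List (FreeGroup Bool), l.length ≤ n ∧
      (∀ c ∈ l, c ∈ commutatorSet (FreeGroup Bool)) ∧ l.prod = g := by
  rintro ⟨n, h⟩
  obtain ⟨l, h1, h2, h3⟩ := h
    ((of false * of true * (of false)⁻¹ * (of true)⁻¹ : FreeGroup Bool) ^ (12 * n + 1)) (by
      apply pow_mem
      rw [commutator_def]
      exact Subgroup.commutator_mem_commutator (Subgroup.mem_top _) (Subgroup.mem_top _))
  have h4 := q_prod l h2
  rw [h3, q_pow] at h4
  have h5 := (abs_le.1 h4).2
  have h6 : (l.length : ℤ) ≤ n := by exact_mod_cast h1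
  push_cast at h5
  linarith

end Pool.Agent.TH106.FreeCW
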