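import Mathlib
import Pool.Agent.H617R3.AP.Defs

/-!
# Largest progression free sets: the product inequality and growth at every scale
-/

set_option autoImplicit false

open Finset Filter Topology

namespace Pool.Agent.TH106.AP3

open Pool.Agent.H617R3.AP

/-- a progression of integers in a progression free set is constant -/
theorem no_ap {k : ℕ} (hk : 3 ≤ k) {A : Finset ℕ} (hA : APFree k A) (z : ℕ → ℕ) (e : ℤ)
    (hz : ∀ i < k, z i ∈ A) (he : ∀ i < k, (z i : ℤ) = z 0 + i * e) : e = 0 := by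
  rcases lt_trichotomy e 0 with h | h | h
  · exfalso
    obtain ⟨d, hd⟩ : ∃ d : ℕ, (d : ℤ) = -e := ⟨(-e).toNat, by omega⟩
    refine hA (z (k - 1)) d (by omega) fun i hi => ?_
    have h1 := he (k - 1 - i) (by omega)
    have h2 := he (k - 1) (by omega)
    have h3 : z (k - 1) + i * d = z (k - 1 - i) := by
      have h4 : ((z (k - 1) + i * d : ℕ) : ℤ) = z (k - 1 - i) := by
        push_cast
        rw [h1, h2, hd]
        have h5 : ((k - 1 - i : ℕ) : ℤ) = ((k - 1 : ℕ) : ℤ) - i := by omega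
        rw [h5]
        ring
      exact_mod_cast h4
    rw [h3]
    exact hz _ (by omega)
  · exact h
  · exfalso
    obtain ⟨d, hd⟩ : ∃ d : ℕ, (d : ℤ) = e := ⟨e.toNat, by omega⟩
    refine hA (z 0) d (by omega) fun i hi => ?_
    have h1 := he i hi
    have h3 : z 0 + i * d = z i := by
      have h4 : ((z 0 + i * d : ℕ) : ℤ) = z i := by
        push_cast
        rw [h1, hd]
      exact_mod_cast h4
    rw [h3]
    exact hz _ hi

/-- vanishing second differences -/
theorem linear {k : ℕ} (u : ℕ → ℤ) (h : ∀ i, i + 2 < k → u i + u (i + 2) = 2 * u (i + 1)) :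
    ∀ i, i < k → u i = u 0 + i * (u 1 - u 0) := by
  intro i
  induction i using Nat.strong_induction_on with
  | _ i ih =>
    intro hi
    match i, ih, hi with
    | 0, _, _ => simp
    | 1, _, _ => simp
    | j + 2, ih, hi =>
      have h1 := ih j (by omega) (by omega)
      have h2 := ih (j + 1) (by omega) (by omega)
      have h3 := h j hi
      push_cast at h2 ⊢
      linarith

/-- **product inequality** -/
theorem prod {k : ℕ} (hk : 3 ≤ k) {m : ℕ} (hm : 1 ≤ m) (M : ℕ) :
    r k m * r k M ≤ r k ((2 * m - 1) * M) := by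
  classical
  obtain ⟨A, hA, hA2, hA3⟩ := exists_opt (k := k) (by omega) m
  obtain ⟨B, hB, hB2, hB3⟩ := exists_opt (k := k) (by omega) M
  set q := 2 * m - 1 with hq
  have hq1 : m ≤ q := by omega
  set S := (A ×ˢ B).image (fun p => p.1 + q * (p.2 - 1)) with hS
  have key : ∀ a ∈ A, ∀ b ∈ B, 1 ≤ a ∧ a ≤ m ∧ 1 ≤ b ∧ b ≤ M := by
    intro a ha b hb
    have h1 := mem_Icc.1 (hA ha)
    have h2 := mem_Icc.1 (hB hb)
    exact ⟨h1.1, h1.2, h2.1, h2.2⟩
  have hcard : S.card = A.card * B.card := by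
    rw [hS, card_image_of_injOn, card_product]
    rintro ⟨a, b⟩ h1 ⟨a', b'⟩ h2 h
    rw [mem_coe, mem_product] at h1 h2
    obtain ⟨k1, k2, k3, k4⟩ := key a h1.1 b h1.2
    obtain ⟨l1, l2, l3, l4⟩ := key a' h2.1 b' h2.2
    simp only at h
    have e1 : b - 1 = b' - 1 := by
      rcases lt_trichotomy (b - 1) (b' - 1) with h5 | h5 | h5
      · exfalso
        have : q * (b - 1) + q ≤ q * (b' - 1) := by
          calc q * (b - 1) + q = q * (b - 1 + 1) := by ring
            _ ≤ q * (b' - 1) := Nat.mul_le_mul_left _ (by omega)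
        omega
      · exact h5
      · exfalso
        have : q * (b' - 1) + q ≤ q * (b - 1) := by
          calc q * (b' - 1) + q = q * (b' - 1 + 1) := by ring
            _ ≤ q * (b - 1) := Nat.mul_le_mul_left _ (by omega)
        omega
    rw [e1] at h
    have e2 : a = a' := by omega
    have e3 : b = b' := by omega
    rw [e2, e3]
  rw [← hA3, ← hB3, ← hcard]
  apply card_le_r
  · intro n hn
    rw [hS, mem_image] at hn
    obtain ⟨⟨a, b⟩, h1, rfl⟩ := hn
    rw [mem_product] at h1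
    obtain ⟨k1, k2, k3, k4⟩ := key a h1.1 b h1.2
    rw [mem_Icc]
    refine ⟨by simp only; omega, ?_⟩
    simp only
    calc a + q * (b - 1) ≤ q + q * (b - 1) := by omega
      _ = q * (b - 1 + 1) := by ring
      _ ≤ q * M := Nat.mul_le_mul_left _ (by omega)
  · intro x d hd h
    have h2 : ∀ i, ∃ p : ℕ × ℕ, i < k → p.1 ∈ A ∧ p.2 ∈ B ∧ p.1 + q * (p.2 - 1) = x + i * d := by
      intro i
      by_cases hi : i < k
      · have h3 := h i hi
        rw [hS, mem_image] at h3
        obtain ⟨p, h1, h4⟩ := h3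
        rw [mem_product] at h1
        exact ⟨p, fun _ => ⟨h1.1, h1.2, h4⟩⟩
      · exact ⟨(0, 0), fun h' => absurd h' hi⟩
    choose p hp using h2
    have hint : ∀ i < k, ((p i).1 : ℤ) + q * (((p i).2 : ℤ) - 1) = x + i * d := by
      intro i hi
      obtain ⟨h1, h3, h4⟩ := hp i hi
      obtain ⟨k1, k2, k3, k4⟩ := key _ h1 _ h3
      have : (((p i).2 - 1 : ℕ) : ℤ) = ((p i).2 : ℤ) - 1 := by omega
      rw [← this]
      exact_mod_cast h4
    have hsec : ∀ i, i + 2 < k → ((p i).1 : ℤ) + (p (i + 2)).1 = 2 * (p (i + 1)).1 ∧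
        ((p i).2 : ℤ) + (p (i + 2)).2 = 2 * (p (i + 1)).2 := by
      intro i hi
      have e0 := hint i (by omega)
      have e1 := hint (i + 1) (by omega)
      have e2 := hint (i + 2) (by omega)
      obtain ⟨a1, b1, c1, d1⟩ := key _ (hp i (by omega)).1 _ (hp i (by omega)).2.1
      obtain ⟨a2, b2, c2, d2⟩ := key _ (hp (i + 1) (by omega)).1 _ (hp (i + 1) (by omega)).2.1
      obtain ⟨a3, b3, c3, d3⟩ := key _ (hp (i + 2) (by omega)).1 _ (hp (i + 2) (by omega)).2.1
      set w : ℤ := ((p i).2 : ℤ) + (p (i + 2)).2 - 2 * (p (i + 1)).2 with hw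
      have e3 : ((p i).1 : ℤ) + (p (i + 2)).1 - 2 * (p (i + 1)).1 + q * w = 0 := by
        rw [hw]
        push_cast at e0 e1 e2
        linear_combination e0 + e2 - 2 * e1
      have hqz : (q : ℤ) = 2 * m - 1 := by omega
      have h5 : w = 0 := by
        rcases lt_trichotomy w 0 with h6 | h6 | h6
        · exfalso
          have : (q : ℤ) * w ≤ -q := by nlinarith
          omega
        · exact h6
        · exfalso
          have : (q : ℤ) ≤ q * w := by nlinarith
          omega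
      rw [h5] at e3
      constructor
      · linarith
      · rw [hw] at h5; linarith
    have l1 := linear (k := k) (fun i => ((p i).1 : ℤ)) (fun i hi => (hsec i hi).1)
    have l2 := linear (k := k) (fun i => ((p i).2 : ℤ)) (fun i hi => (hsec i hi).2)
    have z1 := no_ap hk hA2 (fun i => (p i).1) _ (fun i hi => (hp i hi).1) l1
    have z2 := no_ap hk hB2 (fun i => (p i).2) _ (fun i hi => (hp i hi).2.1) l2
    have e0 := hint 0 (by omega)
    have e1 := hint 1 (by omega)
    have hd' : (1 : ℤ) ≤ d := by exact_mod_cast hd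
    push_cast at e0 e1
    have z1' : ((p 1).1 : ℤ) = (p 0).1 := by linarith
    have z2' : ((p 1).2 : ℤ) = (p 0).2 := by linarith
    rw [z1', z2'] at e1
    linarith

/-- two well separated copies -/
theorem two_mul_le {k : ℕ} (hk : 3 ≤ k) (n : ℕ) : 2 * r k n ≤ r k (3 * n) := by
  have h := prod hk (m := 2) (by norm_num) n
  have h2 : 2 ≤ r k 2 := by
    have h3 : ({1, 2} : Finset ℕ).card ≤ r k 2 := by
      refine card_le_r (by decide) ?_
      intro a d hd h
      have h0 := h 0 (by omega)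
      have h2 := h 2 (by omega)
      simp only [zero_mul, add_zero, mem_insert, mem_singleton] at h0 h2
      omega
    simpa using h3
  calc 2 * r k n ≤ r k 2 * r k n := Nat.mul_le_mul_right _ h2
    _ ≤ r k ((2 * 2 - 1) * n) := h
    _ = r k (3 * n) := by norm_num

/-- `r k` tends to infinity -/
theorem tendsto_r {k : ℕ} (hk : 3 ≤ k) : Tendsto (fun n : ℕ => (r k n : ℝ)) atTop atTop := by
  have h1 : ∀ j : ℕ, 2 ^ j ≤ r k (3 ^ j) := by
    intro j
    induction j with
    | zero =>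
      have h3 : ({1} : Finset ℕ).card ≤ r k 1 := by
        refine card_le_r (by decide) ?_
        intro a d hd h
        have h0 := h 0 (by omega)
        have h2 := h 2 (by omega)
        simp only [zero_mul, add_zero, mem_singleton] at h0 h2
        omega
      simpa using h3
    | succ j ih =>
      rw [pow_succ, pow_succ]
      have := two_mul_le hk (3 ^ j)
      rw [mul_comm (3 ^ j) 3]
      omega
  rw [tendsto_atTop]
  intro b
  obtain ⟨j, hj⟩ := pow_unbounded_of_one_lt b (one_lt_two : (1 : ℝ) < 2)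
  filter_upwards [eventually_ge_atTop (3 ^ j)] with n hn
  have h2 : 2 ^ j ≤ r k n := (h1 j).trans (r_mono hn)
  have h3 : ((2 : ℝ) ^ j) ≤ r k n := by exact_mod_cast h2
  linarith

/-- slow variation at every scale -/
theorem slow {k : ℕ} (hk : 3 ≤ k) {ε : ℝ} (hε : 0 < ε) : ∃ δ : ℝ, 0 < δ ∧ ∀ N M : ℕ, 1 ≤ N →
    N ≤ M → (M : ℝ) ≤ (1 + δ) * N → (r k M : ℝ) ≤ (1 + ε) * r k N := by
  obtain ⟨q, hq, hq1⟩ := ((tendsto_r hk).eventually_ge_atTop (1 / ε)).and
    (eventually_ge_atTop 1) |>.exists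
  refine ⟨1 / (2 * q), by positivity, fun N M hN hNM hM => ?_⟩
  have hq0 : (0 : ℝ) < q := by exact_mod_cast hq1
  rcases Nat.eq_or_lt_of_le hNM with h | h
  · rw [← h]
    have : (0 : ℝ) ≤ r k N := Nat.cast_nonneg _
    nlinarith
  · obtain ⟨d, rfl⟩ : ∃ d, M = N + d := ⟨M - N, by omega⟩
    have hd : 1 ≤ d := by omega
    have h1 : 2 * (d * q) ≤ N := by
      have h2 : ((N + d : ℕ) : ℝ) ≤ (1 + 1 / (2 * q)) * N := hM
      push_cast at h2
      have h3 : (d : ℝ) ≤ N / (2 * q) := by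
        have : (1 + 1 / (2 * (q : ℝ))) * N = N + N / (2 * q) := by ring
        linarith
      rw [le_div_iff₀ (by positivity)] at h3
      have h4 : ((2 * (d * q) : ℕ) : ℝ) ≤ (N : ℕ) := by
        push_cast
        linarith
      exact_mod_cast h4
    have h2 : r k d * r k q ≤ r k N := by
      refine (prod hk hd q).trans (r_mono ?_)
      calc (2 * d - 1) * q ≤ 2 * d * q := Nat.mul_le_mul_right _ (by omega)
        _ = 2 * (d * q) := by ring
        _ ≤ N := h1
    have h3 : (r k d : ℝ) * r k q ≤ r k N := by exact_mod_cast h2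
    have h4 : (r k d : ℝ) * (1 / ε) ≤ r k N :=
      (mul_le_mul_of_nonneg_left hq (Nat.cast_nonneg _)).trans h3
    have h5 : (r k d : ℝ) ≤ ε * r k N := by
      rw [mul_one_div, div_le_iff₀ hε] at h4
      linarith
    have h6 : (r k (N + d) : ℝ) ≤ r k N + r k d := by exact_mod_cast r_add (by omega) N d
    linarith

/-- growth along the multiples of `3 ^ j` -/
theorem chain {k : ℕ} (hk : 3 ≤ k) (j m : ℕ) (hm : 1 ≤ m)
    (hR : (2 : ℝ) ^ j < r k (3 ^ j / 2)) :
    (1 + (1 / 2 ^ j - 1 / (r k (3 ^ j / 2) : ℝ))) * r k (3 ^ j * m) ≤ r k (2 * (3 ^ j * m)) := by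
  have hy : ∀ i, (2 : ℝ) * r k (2 * (3 ^ i * m)) ≤ r k (2 * (3 ^ (i + 1) * m)) := by
    intro i
    have h := two_mul_le hk (2 * (3 ^ i * m))
    have e : 3 * (2 * (3 ^ i * m)) = 2 * (3 ^ (i + 1) * m) := by ring
    rw [e] at h
    exact_mod_cast h
  have hx : ∀ i, (r k (3 ^ (i + 1) * m) : ℝ) ≤ r k (3 ^ i * m) + r k (2 * (3 ^ i * m)) := by
    intro i
    have h := r_add (k := k) (by omega) (3 ^ i * m) (2 * (3 ^ i * m))
    have e : 3 ^ i * m + 2 * (3 ^ i * m) = 3 ^ (i + 1) * m := by ring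
    rw [e] at h
    exact_mod_cast h
  have hind : ∀ i, (r k (3 ^ i * m) : ℝ) ≤ r k m + (1 - 1 / 2 ^ i) * r k (2 * (3 ^ i * m)) := by
    intro i
    induction i with
    | zero => simp
    | succ i ih =>
      have h1 := hx i
      have h2 := hy i
      have h3 : (1 : ℝ) / 2 ^ i ≤ 1 := by
        rw [div_le_one (by positivity)]
        exact one_le_pow₀ (by norm_num)
      have h4 : (1 : ℝ) / 2 ^ (i + 1) = 1 / 2 ^ i / 2 := by
        rw [pow_succ]; field_simp
      rw [h4]
      have h5 : (2 - 1 / 2 ^ i) * (2 * (r k (2 * (3 ^ i * m)) : ℝ)) ≤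
          (2 - 1 / 2 ^ i) * r k (2 * (3 ^ (i + 1) * m)) :=
        mul_le_mul_of_nonneg_left h2 (by linarith)
      linarith
  have h1 := hind j
  have h2 : (r k m : ℝ) * r k (3 ^ j / 2) ≤ r k (3 ^ j * m) := by
    have h3 : r k m * r k (3 ^ j / 2) ≤ r k (3 ^ j * m) := by
      refine (prod hk hm _).trans (r_mono ?_)
      calc (2 * m - 1) * (3 ^ j / 2) ≤ 2 * m * (3 ^ j / 2) := Nat.mul_le_mul_right _ (by omega)
        _ = m * (3 ^ j / 2 * 2) := by ring
        _ ≤ m * 3 ^ j := Nat.mul_le_mul_left _ (Nat.div_mul_le_self _ _)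
        _ = 3 ^ j * m := by ring
    exact_mod_cast h3
  set R : ℝ := (r k (3 ^ j / 2) : ℝ) with hRdef
  set t : ℝ := 1 / 2 ^ j with ht
  have hR0 : 0 < R := lt_trans (by positivity) hR
  have ht1 : t ≤ 1 := by
    rw [ht, div_le_one (by positivity)]
    exact one_le_pow₀ (by norm_num)
  have hst : 1 / R < t := by
    rw [ht]
    exact one_div_lt_one_div_of_lt (by positivity) hR
  have hx0 : (0 : ℝ) ≤ r k (3 ^ j * m) := Nat.cast_nonneg _
  have hy0 : (0 : ℝ) ≤ r k (2 * (3 ^ j * m)) := Nat.cast_nonneg _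
  have h3 : (r k m : ℝ) ≤ 1 / R * r k (3 ^ j * m) := by
    rw [one_div, inv_mul_eq_div, le_div_iff₀ hR0]
    exact h2
  have h4 : (1 - 1 / R) * r k (3 ^ j * m) ≤ (1 - t) * r k (2 * (3 ^ j * m)) := by linarith
  have hs0 : 0 < 1 / R := by positivity
  have h5 : (1 + (t - 1 / R)) * (1 - t) ≤ 1 - 1 / R := by nlinarith
  rcases lt_or_eq_of_le ht1 with h | h
  · have h6 : (1 - t) * ((1 + (t - 1 / R)) * r k (3 ^ j * m)) ≤
        (1 - t) * r k (2 * (3 ^ j * m)) := by
      refine le_trans ?_ h4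
      calc (1 - t) * ((1 + (t - 1 / R)) * (r k (3 ^ j * m) : ℝ))
          = (1 + (t - 1 / R)) * (1 - t) * r k (3 ^ j * m) := by ring
        _ ≤ (1 - 1 / R) * r k (3 ^ j * m) := mul_le_mul_of_nonneg_right h5 hx0
    exact le_of_mul_le_mul_left h6 (by linarith)
  · rw [h] at h4 hst
    have h6 : (r k (3 ^ j * m) : ℝ) ≤ 0 := by
      by_contra h7
      push Not at h7
      have : 0 < (1 - 1 / R) * r k (3 ^ j * m) := mul_pos (by linarith) h7
      linarith
    have h7 : (r k (3 ^ j * m) : ℝ) = 0 := le_antisymm h6 hx0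
    rw [h7, mul_zero]
    exact hy0

/-- Behrend beats the Cantor set -/
theorem beats {k : ℕ} (hk : 3 ≤ k) : (2 : ℝ) ^ 144 < r k (3 ^ 144 / 2) := by
  obtain ⟨n, hn⟩ : ∃ n : ℕ, n = 3 ^ 144 / 2 := ⟨_, rfl⟩
  rw [← hn]
  have h1 := behrend hk n
  have hn1 : (3 : ℝ) ^ 143 ≤ n := by
    have : 3 ^ 143 ≤ n := by rw [hn]; norm_num
    exact_mod_cast this
  have hn2 : (n : ℝ) ≤ 3 ^ 144 := by
    have : n ≤ 3 ^ 144 := by rw [hn]; norm_num
    exact_mod_cast this
  have hl3 : Real.log 3 ≤ 1.2 := by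
    rw [Real.log_le_iff_le_exp (by norm_num)]
    have := Real.quadratic_le_exp_of_nonneg (x := 1.2) (by norm_num)
    have h2 : (1.2 : ℝ) ≤ 1.2 := le_rfl
    have h3 : Real.exp 1.2 = Real.exp 0.6 * Real.exp 0.6 := by
      rw [← Real.exp_add]; norm_num
    have h4 := Real.quadratic_le_exp_of_nonneg (x := 0.6) (by norm_num)
    rw [h3]
    have h5 : (1.78 : ℝ) ≤ Real.exp 0.6 := by
      refine le_trans (by norm_num) h4
    nlinarith
  have hlog : Real.log n ≤ 144 * 1.2 := by
    calc Real.log n ≤ Real.log (3 ^ 144) := Real.log_le_log (by positivity) hn2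
      _ = 144 * Real.log 3 := by rw [Real.log_pow]; norm_num
      _ ≤ 144 * 1.2 := by linarith
  have hs : √(Real.log n) ≤ 13.2 := by
    rw [Real.sqrt_le_left (by norm_num)]
    refine hlog.trans (by norm_num)
  have he : Real.exp (-53) ≤ Real.exp (-4 * √(Real.log n)) := by
    apply Real.exp_le_exp.2
    generalize √(Real.log n) = y at hs
    linarith
  have he2 : Real.exp (53 : ℝ) ≤ 2.72 ^ 53 := by
    have h2 : Real.exp (53 : ℝ) = Real.exp 1 ^ 53 := by
      rw [← Real.exp_nat_mul]; norm_num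
    rw [h2]
    exact pow_le_pow_left₀ (Real.exp_pos _).le (by linarith [Real.exp_one_lt_d9]) _
  have he3 : (1 : ℝ) / 2.72 ^ 53 ≤ Real.exp (-53) := by
    rw [Real.exp_neg, ← one_div]
    exact one_div_le_one_div_of_le (Real.exp_pos _) he2
  calc (2 : ℝ) ^ 144 < 3 ^ 143 * (1 / 2.72 ^ 53) := by norm_num
    _ ≤ n * Real.exp (-4 * √(Real.log n)) :=
        mul_le_mul hn1 (he3.trans he) (by positivity) (by positivity)
    _ ≤ r k n := h1

/-- **growth at every scale**, from one good exponent -/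
theorem growth_of {k : ℕ} (hk : 3 ≤ k) (j : ℕ) (hR : (2 : ℝ) ^ j < r k (3 ^ j / 2)) :
    ∃ c : ℝ, 0 < c ∧ c ≤ 1 ∧ ∃ N₀ : ℕ, ∀ N : ℕ, N₀ ≤ N → (1 + c) * r k N ≤ r k (2 * N) := by
  obtain ⟨R, hRdef⟩ : ∃ R : ℝ, R = (r k (3 ^ j / 2) : ℝ) := ⟨_, rfl⟩
  have hch := chain hk j
  rw [← hRdef] at hR hch
  have hR0 : 0 < R := lt_trans (by positivity) hR
  obtain ⟨c, hc⟩ : ∃ c : ℝ, c = 1 / 2 ^ j - 1 / R := ⟨_, rfl⟩
  rw [← hc] at hch
  have hc0 : 0 < c := by
    rw [hc, sub_pos]
    exact one_div_lt_one_div_of_lt (by positivity) hR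
  have hc1 : c ≤ 1 := by
    have h1 : (1 : ℝ) / 2 ^ j ≤ 1 := by
      rw [div_le_one (by positivity)]
      exact one_le_pow₀ (by norm_num)
    have h2 : 0 < 1 / R := by positivity
    rw [hc]; linarith
  obtain ⟨q, hq⟩ : ∃ q : ℕ, q = 3 ^ j := ⟨_, rfl⟩
  rw [← hq] at hch
  have hq0 : 0 < q := by rw [hq]; positivity
  have hq' : (0 : ℝ) < q := by exact_mod_cast hq0
  obtain ⟨N₁, hN₁⟩ := ((tendsto_r hk).eventually_ge_atTop ((1 + c) * q / (c / 2)))
    |>.exists_forall_of_atTop
  refine ⟨c / 2, by positivity, by linarith, max N₁ q, fun N hN => ?_⟩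
  have hN1 := hN₁ N (le_trans (le_max_left _ _) hN)
  have hN2 : q ≤ N := le_trans (le_max_right _ _) hN
  obtain ⟨m, hm⟩ : ∃ m, m = N / q := ⟨_, rfl⟩
  have hm1 : 1 ≤ m := by rw [hm]; exact (Nat.one_le_div_iff hq0).2 hN2
  have h1 := hch m hm1 hR
  have hdm : q * m + N % q = N := by rw [hm]; exact Nat.div_add_mod N _
  have hmod : N % q < q := Nat.mod_lt _ hq0
  have h2 : (r k N : ℝ) ≤ r k (q * m) + q := by
    have h3 : r k N ≤ r k (q * m) + q := by
      calc r k N = r k (q * m + N % q) := by rw [hdm]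
        _ ≤ r k (q * m) + r k (N % q) := r_add (by omega) _ _
        _ ≤ r k (q * m) + q := Nat.add_le_add_left ((r_le_self _ _).trans hmod.le) _
    exact_mod_cast h3
  have h3 : (r k (2 * (q * m)) : ℝ) ≤ r k (2 * N) := by
    have h4 : r k (2 * (q * m)) ≤ r k (2 * N) := r_mono (by omega)
    exact_mod_cast h4
  rw [div_le_iff₀ (by positivity)] at hN1
  have h5 : (1 + c) * ((r k N : ℝ) - q) ≤ (1 + c) * r k (q * m) :=
    mul_le_mul_of_nonneg_left (by linarith) (by linarith)
  have h6 : (1 + c / 2) * (r k N : ℝ) = (1 + c) * ((r k N : ℝ) - q) + (1 + c) * q -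
      r k N * (c / 2) := by ring
  linarith

/-- **growth at every scale** -/
theorem growth {k : ℕ} (hk : 3 ≤ k) : ∃ c : ℝ, 0 < c ∧ c ≤ 1 ∧ ∃ N₀ : ℕ, ∀ N : ℕ, N₀ ≤ N →
    (1 + c) * r k N ≤ r k (2 * N) := growth_of hk 144 (beats hk)

/-- both halves of a progression free set of almost maximal size are large -/
theorem halves {k : ℕ} (hk : 3 ≤ k) : ∃ c : ℝ, 0 < c ∧ c ≤ 1 ∧ ∃ N₀ : ℕ, ∀ N : ℕ, N₀ ≤ N →
    (1 + c) * r k N ≤ r k (2 * N) ∧
    ∀ A : Finset ℕ, A ⊆ Icc 1 (2 * N) → APFree k A → (1 - c / 4) * r k (2 * N) ≤ A.card →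
      c / 4 * A.card ≤ (A.filter (fun n => n ≤ N)).card ∧
      c / 4 * A.card ≤ (A.filter (fun n => N < n)).card := by
  classical
  obtain ⟨c, hc, hc1, N₀, h⟩ := growth hk
  refine ⟨c, hc, hc1, N₀, fun N hN => ⟨h N hN, fun A hA hA2 hA3 => ?_⟩⟩
  have h0 := h N hN
  have hlow : (A.filter (fun n => n ≤ N)).card ≤ r k N := by
    refine card_le_r (fun n hn => ?_) (hA2.mono (filter_subset _ _))
    rw [mem_filter] at hn
    have := mem_Icc.1 (hA hn.1)
    rw [mem_Icc]; omega
  have hup : (A.filter (fun n => N < n)).card ≤ r k N := by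
    refine le_trans ?_ (card_filter_le (by omega) hA2 (q := 1) le_rfl (N + 1) N)
    refine card_le_card_of_injOn (fun n => n - (N + 1)) ?_ ?_
    · intro n hn
      have hn1 : n ∈ A.filter (fun n => N < n) := hn
      rw [mem_filter] at hn1
      have h4 := mem_Icc.1 (hA hn1.1)
      simp only [coe_filter, mem_range, Set.mem_ofPred_eq, one_mul]
      constructor
      · omega
      · have : N + 1 + (n - (N + 1)) = n := by omega
        rw [this]; exact hn1.1
    · intro n hn n' hn' h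
      have hn1 : n ∈ A.filter (fun n => N < n) := hn
      have hn2 : n' ∈ A.filter (fun n => N < n) := hn'
      rw [mem_filter] at hn1 hn2
      simp only at h
      omega
  have hsum : (A.filter (fun n => n ≤ N)).card + (A.filter (fun n => N < n)).card = A.card := by
    rw [← Finset.card_filter_add_card_filter_not (s := A) (fun n => n ≤ N)]
    simp only [not_le]
  have hAle : A.card ≤ r k (2 * N) := card_le_r hA hA2
  have r1 : ((A.filter (fun n => n ≤ N)).card : ℝ) ≤ r k N := by exact_mod_cast hlow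
  have r2 : ((A.filter (fun n => N < n)).card : ℝ) ≤ r k N := by exact_mod_cast hup
  have r3 : ((A.filter (fun n => n ≤ N)).card : ℝ) + (A.filter (fun n => N < n)).card = A.card := by
    exact_mod_cast hsum
  have r4 : (A.card : ℝ) ≤ r k (2 * N) := by exact_mod_cast hAle
  have r5 : (0 : ℝ) ≤ r k (2 * N) := Nat.cast_nonneg _
  have r6 : (0 : ℝ) ≤ A.card := Nat.cast_nonneg _
  have r7 : (r k N : ℝ) ≤ (1 - c / 2) * r k (2 * N) := by
    have h8 : (1 - c / 2) * ((1 + c) * (r k N : ℝ)) ≤ (1 - c / 2) * r k (2 * N) :=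
      mul_le_mul_of_nonneg_left h0 (by linarith)
    have h9 : (r k N : ℝ) ≤ (1 - c / 2) * ((1 + c) * (r k N : ℝ)) := by
      have h10 : 1 ≤ (1 - c / 2) * (1 + c) := by nlinarith
      have h11 : (0 : ℝ) ≤ r k N := Nat.cast_nonneg _
      nlinarith
    linarith
  have r8 : c / 4 * A.card ≤ c / 4 * r k (2 * N) := mul_le_mul_of_nonneg_left r4 (by linarith)
  constructor
  · linarith
  · linarith

/-- sparse sequences suffice -/
theorem sparse {k : ℕ} (hk : 3 ≤ k) {n : ℕ → ℕ} (hn : Monotone n)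
    (hn1 : Tendsto (fun i => (n (i + 1) : ℝ) / n i) atTop (𝓝 1)) {f : ℕ → ℝ}
    (hf : Tendsto (fun i => (r k (n i) : ℝ) / f i) atTop (𝓝 1)) {I : ℕ → ℕ}
    (hI : ∀ᶠ N in atTop, n (I N) ≤ N ∧ N < n (I N + 1)) :
    Tendsto (fun N => (r k N : ℝ) / f (I N)) atTop (𝓝 1) := by
  have hIt : Tendsto I atTop atTop := by
    rw [tendsto_atTop]
    intro b
    filter_upwards [hI, eventually_ge_atTop (n b)] with N hN hb
    by_contra h
    push Not at h
    have := hn (show I N + 1 ≤ b by omega)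
    omega
  have hn0 : ∀ᶠ i in atTop, 1 ≤ n i := by
    have h1 := hn1.eventually (lt_mem_nhds (show (0 : ℝ) < 1 by norm_num))
    filter_upwards [h1] with i hi
    by_contra h
    have : n i = 0 := by omega
    rw [this] at hi
    simp at hi
  have hrat : Tendsto (fun i => (r k (n (i + 1)) : ℝ) / r k (n i)) atTop (𝓝 1) := by
    rw [Metric.tendsto_atTop]
    intro ε hε
    obtain ⟨δ, hδ, h⟩ := slow hk (half_pos hε)
    have h1 := hn1.eventually (gt_mem_nhds (show (1 : ℝ) < 1 + δ by linarith))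
    obtain ⟨i₀, hi₀⟩ := (h1.and hn0).exists_forall_of_atTop
    refine ⟨i₀, fun i hi => ?_⟩
    obtain ⟨h2, h3⟩ := hi₀ i hi
    have h3' : (0 : ℝ) < n i := by exact_mod_cast h3
    have h4 := h (n i) (n (i + 1)) h3 (hn (Nat.le_succ i)) (by
      rw [div_lt_iff₀ h3'] at h2
      exact h2.le)
    have h5 : (0 : ℝ) < r k (n i) := by
      have : 1 ≤ r k (n i) := by
        have h6 : 1 ≤ r k 1 := by
          have h3 : ({1} : Finset ℕ).card ≤ r k 1 := by
            refine card_le_r (by decide) ?_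
            intro a d hd h
            have h0 := h 0 (by omega)
            have h2 := h 2 (by omega)
            simp only [zero_mul, add_zero, mem_singleton] at h0 h2
            omega
          simpa using h3
        exact h6.trans (r_mono h3)
      exact_mod_cast this
    have h6 : (r k (n i) : ℝ) ≤ r k (n (i + 1)) := by exact_mod_cast r_mono (hn (Nat.le_succ i))
    rw [Real.dist_eq, abs_lt]
    constructor
    · have : 1 ≤ (r k (n (i + 1)) : ℝ) / r k (n i) := by rw [le_div_iff₀ h5]; linarith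
      linarith
    · have : (r k (n (i + 1)) : ℝ) / r k (n i) ≤ 1 + ε / 2 := by rw [div_le_iff₀ h5]; exact h4
      linarith
  have hpos : ∀ᶠ N in atTop, (0 : ℝ) < r k (n (I N)) := by
    filter_upwards [hIt.eventually hn0] with N hN
    have h6 : 1 ≤ r k 1 := by
      have h3 : ({1} : Finset ℕ).card ≤ r k 1 := by
        refine card_le_r (by decide) ?_
        intro a d hd h
        have h0 := h 0 (by omega)
        have h2 := h 2 (by omega)
        simp only [zero_mul, add_zero, mem_singleton] at h0 h2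
        omega
      simpa using h3
    have := h6.trans (r_mono (k := k) hN)
    exact_mod_cast this
  have h1 : Tendsto (fun N => (r k N : ℝ) / r k (n (I N))) atTop (𝓝 1) := by
    refine tendsto_of_tendsto_of_tendsto_of_le_of_le' tendsto_const_nhds (hrat.comp hIt) ?_ ?_
    · filter_upwards [hI, hpos] with N hN h0
      rw [le_div_iff₀ h0, one_mul]
      exact_mod_cast r_mono hN.1
    · filter_upwards [hI, hpos] with N hN h0
      simp only [Function.comp]
      refine div_le_div_of_nonneg_right ?_ h0.le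
      exact_mod_cast r_mono hN.2.le
  have h2 := h1.mul (hf.comp hIt)
  rw [one_mul] at h2
  refine h2.congr' ?_
  filter_upwards [hpos] with N h0
  simp only [Function.comp]
  field_simp

/-- short averages suffice -/
theorem average {k : ℕ} (hk : 3 ≤ k) {h : ℕ → ℕ} (h1 : ∀ᶠ N in atTop, 1 ≤ h N)
    (h0 : Tendsto (fun N => (h N : ℝ) / N) atTop (𝓝 0)) :
    Tendsto (fun N => ((∑ M ∈ Ioc N (N + h N), (r k M : ℝ)) / h N) / r k N) atTop (𝓝 1) := by
  rw [Metric.tendsto_atTop]
  intro ε hε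
  obtain ⟨δ, hδ, hs⟩ := slow hk (half_pos hε)
  have h2 := h0.eventually (gt_mem_nhds hδ)
  obtain ⟨N₀, hN₀⟩ := ((h1.and h2).and ((tendsto_r hk).eventually_gt_atTop 0)
    |>.and (eventually_ge_atTop 1)).exists_forall_of_atTop
  refine ⟨N₀, fun N hN => ?_⟩
  obtain ⟨⟨⟨h3, h4⟩, h5⟩, h6⟩ := hN₀ N hN
  have h3' : (0 : ℝ) < h N := by exact_mod_cast h3
  have h6' : (0 : ℝ) < N := by exact_mod_cast h6
  rw [div_lt_iff₀ h6'] at h4
  have hcard : ((Ioc N (N + h N)).card : ℝ) = h N := by
    rw [Nat.card_Ioc]; simp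
  have hlow : (h N : ℝ) * r k N ≤ ∑ M ∈ Ioc N (N + h N), (r k M : ℝ) := by
    have := Finset.card_nsmul_le_sum (Ioc N (N + h N)) (fun M => (r k M : ℝ)) (r k N : ℝ) (by
      intro M hM
      rw [mem_Ioc] at hM
      exact_mod_cast r_mono hM.1.le)
    rwa [nsmul_eq_mul, hcard] at this
  have hup : ∑ M ∈ Ioc N (N + h N), (r k M : ℝ) ≤ h N * ((1 + ε / 2) * r k N) := by
    have := Finset.sum_le_card_nsmul (Ioc N (N + h N)) (fun M => (r k M : ℝ))
      ((1 + ε / 2) * r k N) (by
      intro M hM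
      rw [mem_Ioc] at hM
      refine hs N M h6 hM.1.le ?_
      have : (M : ℝ) ≤ N + h N := by exact_mod_cast hM.2
      linarith)
    rwa [nsmul_eq_mul, hcard] at this
  rw [Real.dist_eq, abs_lt]
  constructor
  · have : 1 ≤ (∑ M ∈ Ioc N (N + h N), (r k M : ℝ)) / h N / r k N := by
      rw [le_div_iff₀ h5, le_div_iff₀ h3']; linarith
    linarith
  · have : (∑ M ∈ Ioc N (N + h N), (r k M : ℝ)) / h N / r k N ≤ 1 + ε / 2 := by
      rw [div_le_iff₀ h5, div_le_iff₀ h3']; linarith
    linarith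

end Pool.Agent.TH106.AP3
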