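import Pool.Agent.H641R3.RG.Main

/-!
# Nondeterministic read-once programs cannot approximate the clique number, average version
-/

set_option autoImplicit false

open Finset

namespace Pool.Agent.TH106.GapRO

open Pool.Agent.H554R2 Pool.Agent.H554R2.Sem Pool.Agent.H554R2.RK Pool.Agent.H641R3.RG

/-- the sets of `s` vertices whose complete graph (all the other vertices are isolated) is accepted -/
noncomputable def accSets {n N : ℕ} (φ : Fin N ≃ {e : Sym2 (Fin n) // ¬ e.IsDiag})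
    (P : NBP (Fin N)) (s : ℕ) : Finset (Finset (Fin n)) := by
  classical
  exact ((univ : Finset (Fin n)).powersetCard s).filter (fun S => Acc P (kin φ S))

theorem lowerAvg (n s g N : ℕ) (hg : 1 ≤ g) (hs : 15 * g ^ 2 ≤ s) (hn : 2 * s ≤ n)
    (φ : Fin N ≃ {e : Sym2 (Fin n) // ¬ e.IsDiag}) (P : NBP (Fin N)) (hP : ReadK P 1)
    (hno : ∀ x, Acc P x → ∃ Q : Finset (Fin n), s ≤ g * Q.card ∧
      (graphOf φ x).IsClique (Q : Set (Fin n))) :
    (accSets φ P s).card ^ (450 * g ^ 4 + 2) * n ^ s ≤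
      s ^ s * n.choose s ^ (450 * g ^ 4 + 2) *
        (Fintype.card P.State + 1) ^ ((450 * g ^ 4 + 3) * (450 * g ^ 4 + 2)) := by
  classical
  rcases (accSets φ P s).eq_empty_or_nonempty with hempty | hnonempty
  · rw [hempty, card_empty, zero_pow (by omega), zero_mul]
    exact Nat.zero_le _
  have hg2 : g ≤ g ^ 2 := Nat.le_self_pow (by norm_num) g
  have hg4 : 1 ≤ g ^ 4 := Nat.one_le_pow _ _ hg
  set a : ℕ := 225 * g ^ 4 with ha
  have has : a ≤ s ^ 2 := by
    calc a = (15 * g ^ 2) ^ 2 := by rw [ha]; ring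
      _ ≤ s ^ 2 := Nat.pow_le_pow_left hs 2
  have hU1 : ∀ S : Finset (Fin n), S.card = s → (inside φ S).card ≤ s ^ 2 := by
    intro S hS
    have h1 := inside_card φ S
    rw [hS, Nat.choose_two_right, Nat.add_sub_cancel] at h1
    have h4 : s ≤ s ^ 2 := Nat.le_self_pow (by norm_num) s
    have h5 : (s + 1) * s / 2 ≤ s ^ 2 := by
      apply Nat.div_le_of_le_mul
      have : (s + 1) * s = s ^ 2 + s := by ring
      omega
    omega
  have hU0 : ∀ S : Finset (Fin n), S.card = s → 0 < (inside φ S).card := by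
    intro S hS
    obtain ⟨v, hv, w, hw, hvw⟩ := one_lt_card.1 (show 1 < S.card by omega)
    rw [card_pos]
    refine ⟨φ.symm ⟨s(v, w), by simpa using hvw⟩, ?_⟩
    rw [inside, mem_filter]
    refine ⟨mem_univ _, fun u hu => ?_⟩
    rw [Equiv.apply_symm_apply] at hu
    rcases Sym2.mem_iff.1 hu with rfl | rfl
    · exact hv
    · exact hw
  set 𝒮 : Finset (Finset (Fin n)) := accSets φ P s with h𝒮
  have h𝒮m : ∀ S, S ∈ 𝒮 ↔ S.card = s ∧ Acc P (kin φ S) := by
    intro S
    rw [h𝒮, accSets, mem_filter, mem_powersetCard]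
    exact ⟨fun h => ⟨h.1.2, h.2⟩, fun h => ⟨⟨subset_univ _, h.1⟩, h.2⟩⟩
  have hcpos : 0 < n.choose s := Nat.choose_pos (by omega)
  -- descriptors
  have hdesc : ∀ S : Finset (Fin n), ∃ d : (Fin (a + 2) → Option P.State) ×
      (Fin (a + 1) → Option P.State), S ∈ 𝒮 →
      (d.1 0 = some P.start ∧ d.1 (Fin.last (a + 1)) = none ∧
      (∀ t, K6_C P a d (kin φ S) t) ∧
      ∀ j : Fin (a + 1), a * (SVar P (d.1 j.castSucc) (d.2 j) ∩ inside φ S).card ≤
        (inside φ S).card) := by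
    intro S
    by_cases hS : S ∈ 𝒮
    · obtain ⟨κ, u, h1, h2, h3, h4, h5⟩ := cutU a P hP (inside φ S) (hU0 S ((h𝒮m S).1 hS).1)
        (kin φ S) ((h𝒮m S).1 hS).2
      refine ⟨(κ, u), fun _ => ⟨h1, h2, ?_, h5⟩⟩
      rintro (j | j)
      · exact h3 j
      · exact h4 j
    · exact ⟨(fun _ => none, fun _ => none), fun h => absurd h hS⟩
  choose dd hdd using hdesc
  obtain ⟨d, _, hd⟩ := exists_max_image univ
    (fun d => (𝒮.filter (fun S => dd S = d)).card) (univ_nonempty (α :=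
      (Fin (a + 2) → Option P.State) × (Fin (a + 1) → Option P.State)))
  set 𝔽 := 𝒮.filter (fun S => dd S = d) with h𝔽
  have hcover : 𝒮.card ≤ 𝔽.card * (univ : Finset ((Fin (a + 2) → Option P.State) ×
      (Fin (a + 1) → Option P.State))).card :=
    card_le_mul_card_image_of_maps_to (f := dd) (fun _ _ => mem_univ _) _
      (fun b _ => hd b (mem_univ _))
  have hD : (univ : Finset ((Fin (a + 2) → Option P.State) ×
      (Fin (a + 1) → Option P.State))).card = (Fintype.card P.State + 1) ^ (2 * a + 3) := by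
    rw [card_univ, Fintype.card_prod, Fintype.card_fun, Fintype.card_fun, Fintype.card_option,
      Fintype.card_fin, Fintype.card_fin, ← pow_add]
    congr 1
    ring
  rw [hD] at hcover
  have hFpos : 0 < 𝔽.card := by
    rcases Nat.eq_zero_or_pos 𝔽.card with h0 | h0
    · rw [h0, zero_mul] at hcover
      have := hnonempty.card_pos
      omega
    · exact h0
  obtain ⟨S₀, hS₀⟩ := card_pos.1 hFpos
  have hmem : ∀ S ∈ 𝔽, S.card = s ∧ dd S = d := by
    intro S hS
    rw [h𝔽, mem_filter, h𝒮m] at hS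
    exact ⟨hS.1.1, hS.2⟩
  have hprop : ∀ S ∈ 𝔽, (d.1 0 = some P.start ∧ d.1 (Fin.last (a + 1)) = none ∧
      (∀ t, K6_C P a d (kin φ S) t) ∧
      ∀ j : Fin (a + 1), a * (SVar P (d.1 j.castSucc) (d.2 j) ∩ inside φ S).card ≤
        (inside φ S).card) := by
    intro S hS
    obtain ⟨h2, h3⟩ := hmem S hS
    have h4 := hdd S (mem_filter.1 hS).1
    rwa [h3] at h4
  obtain ⟨hstart, hend, hC0, _⟩ := hprop S₀ hS₀
  have hmult : ∀ i : Fin N, ∀ t t' : Fin (a + 1) ⊕ Fin (a + 1), i ∈ K6_X P a d t →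
      i ∈ K6_X P a d t' → t = t' := by
    intro i t t' ht ht'
    have h1 := rk_mult 1 P hP (kin φ S₀) d.1 d.2 hstart (fun j => hC0 (Sum.inl j))
      (fun j => hC0 (Sum.inr j)) i
    rcases t with j | j <;> rcases t' with j' | j'
    · have h2 : (univ.filter (fun j : Fin (a + 1) =>
          i ∈ SVar P (d.1 j.castSucc) (d.2 j))).card ≤ 1 := by omega
      rw [card_le_one.1 h2 j (mem_filter.2 ⟨mem_univ _, ht⟩) j' (mem_filter.2 ⟨mem_univ _, ht'⟩)]
    · have h2 : 0 < (univ.filter (fun j : Fin (a + 1) =>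
          i ∈ SVar P (d.1 j.castSucc) (d.2 j))).card :=
        card_pos.2 ⟨j, mem_filter.2 ⟨mem_univ _, ht⟩⟩
      have h3 : 0 < (univ.filter (fun j : Fin (a + 1) => i ∈ EVar P (d.2 j))).card :=
        card_pos.2 ⟨j', mem_filter.2 ⟨mem_univ _, ht'⟩⟩
      omega
    · have h2 : 0 < (univ.filter (fun j : Fin (a + 1) =>
          i ∈ SVar P (d.1 j.castSucc) (d.2 j))).card :=
        card_pos.2 ⟨j', mem_filter.2 ⟨mem_univ _, ht'⟩⟩
      have h3 : 0 < (univ.filter (fun j : Fin (a + 1) => i ∈ EVar P (d.2 j))).card :=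
        card_pos.2 ⟨j, mem_filter.2 ⟨mem_univ _, ht⟩⟩
      omega
    · have h2 : (univ.filter (fun j : Fin (a + 1) => i ∈ EVar P (d.2 j))).card ≤ 1 := by omega
      rw [card_le_one.1 h2 j (mem_filter.2 ⟨mem_univ _, ht⟩) j' (mem_filter.2 ⟨mem_univ _, ht'⟩)]
  have hX : ∀ S ∈ 𝔽, ∀ t, a * (K6_X P a d t ∩ inside φ S).card ≤ s ^ 2 := by
    intro S hS
    rintro (j | j)
    · have h1 : a * (K6_X P a d (Sum.inl j) ∩ inside φ S).card ≤ (inside φ S).card :=
        (hprop S hS).2.2.2 j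
      exact h1.trans (hU1 S (hmem S hS).1)
    · have h1 : (K6_X P a d (Sum.inr j) ∩ inside φ S).card ≤ 1 :=
        (card_le_card inter_subset_left).trans (K6_evar_card P (d.2 j))
      calc a * (K6_X P a d (Sum.inr j) ∩ inside φ S).card ≤ a * 1 := Nat.mul_le_mul_left _ h1
        _ ≤ s ^ 2 := by omega
  have hcore := core (T := Fin (a + 1) ⊕ Fin (a + 1)) (V := Fin n)
    (fun v w t => PairIn φ (K6_X P a d t) v w) s g hg (by omega)
    (by rw [Fintype.card_fin]; exact hn)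
    (fun v t h => h.1 rfl)
    (fun v w t h => ⟨h.1.symm, by
      obtain ⟨i, hi, hi2⟩ := h.2
      exact ⟨i, hi, by rw [hi2, Sym2.eq_swap]⟩⟩)
    (fun v w t t' h h' => by
      obtain ⟨i, hi, hi2⟩ := h.2
      obtain ⟨i', hi', hi2'⟩ := h'.2
      have : i = i' := φ.injective (Subtype.ext (hi2.trans hi2'.symm))
      subst this
      exact hmult i t t' hi hi')
    𝔽 (fun S hS => (hmem S hS).1)
    (fun S hS t => by
      have h1 := pairIn_card φ (K6_X P a d t) S
      have h2 := hX S hS t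
      calc 225 * g ^ 4 * _ ≤ a * (2 * (K6_X P a d t ∩ inside φ S).card) :=
            Nat.mul_le_mul_left _ h1
        _ = 2 * (a * (K6_X P a d t ∩ inside φ S).card) := by ring
        _ ≤ 2 * s ^ 2 := Nat.mul_le_mul_left _ h2)
    (by
      intro F hF
      set y : Fin N → Bool := fun i => decide (∃ t, i ∈ K6_X P a d t ∧ kin φ (F t) i = true)
        with hy
      have hyC : ∀ t, K6_C P a d y t := by
        intro t
        refine K6_C_congr (fun P x y u w h hx => reach_congr P x y u w h hx) P a d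
          (kin φ (F t)) y t ?_ ((hprop _ (hF t)).2.2.1 t)
        intro v hv
        rw [Bool.eq_iff_iff, hy]
        rw [decide_eq_true_iff]
        constructor
        · intro h
          exact ⟨t, hv, h⟩
        · rintro ⟨t', h1, h2⟩
          rw [hmult v t t' hv h1]
          exact h2
      have hacc : Acc P y := rk_glue P y d.1 d.2 hstart hend (fun j => hyC (Sum.inl j))
        (fun j => hyC (Sum.inr j))
      obtain ⟨Q, hQ1, hQ2⟩ := hno y hacc
      refine ⟨Q, hQ1, fun v hv w hw hvw => ?_⟩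
      have h1 := hQ2 (mem_coe.2 hv) (mem_coe.2 hw) hvw
      rw [graphOf, SimpleGraph.fromEdgeSet_adj] at h1
      obtain ⟨⟨i, hi1, hi2⟩, _⟩ := h1
      rw [hy, decide_eq_true_iff] at hi2
      obtain ⟨t, ht1, ht2⟩ := hi2
      unfold kin at ht2
      rw [decide_eq_true_iff, hi1] at ht2
      exact ⟨t, ⟨hvw, i, ht1, hi1⟩, ht2 v (Sym2.mem_mk_left _ _), ht2 w (Sym2.mem_mk_right _ _)⟩)
  have hT : Fintype.card (Fin (a + 1) ⊕ Fin (a + 1)) = 2 * a + 2 := by
    rw [Fintype.card_sum, Fintype.card_fin]; ring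
  rw [hT, Fintype.card_fin] at hcore
  set B := Fintype.card P.State + 1 with hB
  -- numerics
  have h1 : 450 * g ^ 4 + 2 = 2 * a + 2 := by omega
  have h2 : 450 * g ^ 4 + 3 = 2 * a + 3 := by omega
  rw [h1, h2]
  calc 𝒮.card ^ (2 * a + 2) * n ^ s ≤ (𝔽.card * B ^ (2 * a + 3)) ^ (2 * a + 2) * n ^ s :=
        Nat.mul_le_mul_right _ (Nat.pow_le_pow_left hcover _)
    _ = (𝔽.card ^ (2 * a + 2) * n ^ s) * B ^ ((2 * a + 3) * (2 * a + 2)) := by
        rw [mul_pow, ← pow_mul]; ring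
    _ ≤ (s ^ s * n.choose s ^ (2 * a + 2)) * B ^ ((2 * a + 3) * (2 * a + 2)) :=
        Nat.mul_le_mul_right _ hcore

/-- Randomised version: a family of programs, each graph with a clique of `s` vertices is accepted by
a fraction of at least `p` of them. -/
theorem lowerRand (n s g N Z : ℕ) (p : ℝ) (hp : 0 ≤ p) (hg : 1 ≤ g) (hs : 15 * g ^ 2 ≤ s)
    (hn : 2 * s ≤ n) (φ : Fin N ≃ {e : Sym2 (Fin n) // ¬ e.IsDiag}) (Ω : Type) [Fintype Ω]
    [Nonempty Ω] (P : Ω → NBP (Fin N)) (hP : ∀ ω, ReadK (P ω) 1)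
    (hZ : ∀ ω, Fintype.card (P ω).State ≤ Z)
    (hno : ∀ ω x, RK.Acc (P ω) x → ∃ Q : Finset (Fin n), s ≤ g * Q.card ∧
      (graphOf φ x).IsClique (Q : Set (Fin n)))
    (hyes : ∀ x, (∃ S : Finset (Fin n), S.card = s ∧ (graphOf φ x).IsClique (S : Set (Fin n))) →
      p * Fintype.card Ω ≤ Nat.card {ω : Ω // RK.Acc (P ω) x}) :
    p ^ (450 * g ^ 4 + 2) * ((n : ℝ) / s) ^ s ≤
      ((Z : ℝ) + 1) ^ ((450 * g ^ 4 + 3) * (450 * g ^ 4 + 2)) := by
  classical
  have hg1 : 1 ≤ g ^ 2 := Nat.one_le_pow _ _ hg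
  have hs0 : 0 < s := by omega
  have hn0 : 0 < n := by omega
  have hch : 0 < n.choose s := Nat.choose_pos (by omega)
  have hΩ : (0 : ℝ) < Fintype.card Ω := by exact_mod_cast Fintype.card_pos
  -- a good program
  obtain ⟨ω, hω⟩ : ∃ ω : Ω, p * n.choose s ≤ ((accSets φ (P ω) s).card : ℝ) := by
    by_contra hcon
    push Not at hcon
    have h1 : ∑ ω : Ω, ((accSets φ (P ω) s).card : ℝ) < ∑ _ω : Ω, p * n.choose s :=
      sum_lt_sum_of_nonempty univ_nonempty fun ω _ => hcon ω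
    rw [sum_const, card_univ, nsmul_eq_mul] at h1
    have h2 : ∑ ω : Ω, ((accSets φ (P ω) s).card : ℝ) =
        ∑ S ∈ (univ : Finset (Fin n)).powersetCard s,
          ((univ.filter fun ω : Ω => RK.Acc (P ω) (kin φ S)).card : ℝ) := by
      have h3 : ∀ ω : Ω, ((accSets φ (P ω) s).card : ℝ) =
          ∑ S ∈ (univ : Finset (Fin n)).powersetCard s,
            if RK.Acc (P ω) (kin φ S) then (1 : ℝ) else 0 := by
        intro ω
        rw [sum_boole, accSets]
      have h4 : ∀ S : Finset (Fin n), ((univ.filter fun ω : Ω => RK.Acc (P ω) (kin φ S)).card : ℝ) =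
          ∑ ω : Ω, if RK.Acc (P ω) (kin φ S) then (1 : ℝ) else 0 := by
        intro S
        rw [sum_boole]
      simp_rw [h3, h4]
      exact sum_comm
    have h5 : ∑ _S ∈ (univ : Finset (Fin n)).powersetCard s, p * Fintype.card Ω ≤
        ∑ S ∈ (univ : Finset (Fin n)).powersetCard s,
          ((univ.filter fun ω : Ω => RK.Acc (P ω) (kin φ S)).card : ℝ) := by
      refine sum_le_sum fun S hS => ?_
      have h6 := hyes (kin φ S) ⟨S, (mem_powersetCard.1 hS).2, kin_clique φ S⟩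
      rwa [Nat.card_eq_fintype_card, Fintype.card_subtype] at h6
    rw [sum_const, card_powersetCard, card_univ, Fintype.card_fin, nsmul_eq_mul, ← h2] at h5
    nlinarith
  have h1 := lowerAvg n s g N hg hs hn φ (P ω) (hP ω) (hno ω)
  set m := 450 * g ^ 4 + 2 with hm
  have h2 : (((accSets φ (P ω) s).card ^ m * n ^ s : ℕ) : ℝ) ≤
      ((s ^ s * n.choose s ^ m * (Fintype.card (P ω).State + 1) ^ ((450 * g ^ 4 + 3) * m) : ℕ) :
        ℝ) := by exact_mod_cast h1
  push_cast at h2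
  have h3 : (p * n.choose s) ^ m ≤ ((accSets φ (P ω) s).card : ℝ) ^ m :=
    pow_le_pow_left₀ (by positivity) hω m
  have h4 : ((Fintype.card (P ω).State : ℝ) + 1) ^ ((450 * g ^ 4 + 3) * m) ≤
      ((Z : ℝ) + 1) ^ ((450 * g ^ 4 + 3) * m) := by
    refine pow_le_pow_left₀ (by positivity) ?_ _
    have : (Fintype.card (P ω).State : ℝ) ≤ Z := by exact_mod_cast hZ ω
    linarith
  have h5 : (p * n.choose s) ^ m * (n : ℝ) ^ s ≤
      (s : ℝ) ^ s * (n.choose s : ℝ) ^ m * ((Z : ℝ) + 1) ^ ((450 * g ^ 4 + 3) * m) := by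
    calc (p * n.choose s) ^ m * (n : ℝ) ^ s ≤
          ((accSets φ (P ω) s).card : ℝ) ^ m * (n : ℝ) ^ s :=
          mul_le_mul_of_nonneg_right h3 (by positivity)
      _ ≤ _ := h2
      _ ≤ _ := mul_le_mul_of_nonneg_left h4 (by positivity)
  rw [div_pow, ← mul_div_assoc, div_le_iff₀ (by positivity)]
  have h6 : (0 : ℝ) < (n.choose s : ℝ) ^ m := by positivity
  refine le_of_mul_le_mul_left ?_ h6
  calc (n.choose s : ℝ) ^ m * (p ^ m * (n : ℝ) ^ s) = (p * n.choose s) ^ m * (n : ℝ) ^ s := by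
        rw [mul_pow]; ring
    _ ≤ _ := h5
    _ = _ := by ring

end Pool.Agent.TH106.GapRO
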