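import Pool.Agent.TH106.PrimePow

set_option autoImplicit false

namespace Pool.Agent.TH106.PPClasses

open Pool.Agent.Results.MP_94c9ac_al.IndexOrderCovers Pool.Agent.TH106.PrimePow

/-- from lists of terms to lists of indices -/
lemma of_hit {G : Type*} [Group G] {M : ℕ} (g : Fin M → G) (P : Fin M → Bool)
    (h : Hit (((List.finRange M).filter P).map g)) :
    ∃ l : List (Fin M), l ≠ [] ∧ l.Pairwise (· < ·) ∧ (l.map g).prod = 1 ∧ wt g l ≤ 1 := by
  obtain ⟨l, h1, h2, h3, h4⟩ := h
  rw [List.sublist_map_iff] at h1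
  obtain ⟨l', h5, rfl⟩ := h1
  refine ⟨l', fun h => h2 (by rw [h]; rfl), ?_, h3, ?_⟩
  · exact (List.pairwise_lt_finRange M).sublist (h5.trans List.filter_sublist)
  · refine le_trans (le_of_eq ?_) h4
    unfold wt lw
    rw [List.map_map]
    rfl

theorem good_classes (G : Type*) [Group G] [Finite G] (S : Finset (Subgroup G))
    (hc : ∀ A ∈ S, ∀ x ∈ A, ∀ y ∈ A, x * y = y * x)
    (hd : ∀ A ∈ S, ∀ B ∈ S, A ≠ B → A ⊓ B = ⊥)
    (hpp : ∀ g : G, (∃ A ∈ S, g ∈ A) ∨ ((∃ p k : ℕ, p.Prime ∧ orderOf g = p ^ k) ∧
      ∀ i : ℕ, g ^ i ≠ 1 → ∀ A ∈ S, g ^ i ∉ A)) : Good G (Nat.card G) := by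
  classical
  have : Fintype G := Fintype.ofFinite G
  intro g
  by_cases h1 : ∃ i, g i = 1
  · obtain ⟨i, hi⟩ := h1
    exact ⟨[i], by simp, by simp, by simpa using hi, by simp [wt, hi]⟩
  push Not at h1
  -- the elements outside the subgroups
  set E : Finset G := Finset.univ.filter (fun x => x ≠ 1 ∧ ∀ A ∈ S, x ∉ A) with hE
  have hPP : PP E := by
    intro x hx
    rw [hE, Finset.mem_filter] at hx
    rcases hpp x with ⟨A, hA, hxA⟩ | ⟨h2, h3⟩
    · exact absurd hxA (hx.2.2 A hA)
    · refine ⟨⟨hx.2.1, h2⟩, fun i hi => ?_⟩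
      rw [hE, Finset.mem_filter]
      exact ⟨Finset.mem_univ _, hi, fun A hA => h3 i hi A hA⟩
  have hcard : ∑ A ∈ S, (Nat.card A - 1) + E.card < Nat.card G := by
    have h2 : ∀ A : Subgroup G, Nat.card A - 1 =
        ((Finset.univ.filter (fun x : G => x ∈ A)).erase 1).card := by
      intro A
      rw [Finset.card_erase_of_mem (by simp [A.one_mem])]
      congr 1
      rw [Nat.card_eq_fintype_card, Fintype.card_subtype]
    rw [Finset.sum_congr rfl (fun A _ => h2 A), ← Finset.card_biUnion]
    · rw [← Finset.card_union_of_disjoint]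
      · have h3 : (S.biUnion (fun A => (Finset.univ.filter (fun x : G => x ∈ A)).erase 1)) ∪ E ⊆
            Finset.univ.erase 1 := by
          intro x hx
          rw [Finset.mem_erase]
          refine ⟨?_, Finset.mem_univ _⟩
          rw [Finset.mem_union] at hx
          rcases hx with hx | hx
          · rw [Finset.mem_biUnion] at hx
            obtain ⟨A, _, hx⟩ := hx
            exact (Finset.mem_erase.1 hx).1
          · exact (Finset.mem_filter.1 hx).2.1
        have h4 := Finset.card_le_card h3
        rw [Finset.card_erase_of_mem (Finset.mem_univ _), Finset.card_univ] at h4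
        have h5 : 0 < Fintype.card G := Fintype.card_pos
        rw [Nat.card_eq_fintype_card]
        omega
      · rw [Finset.disjoint_left]
        intro x hx hx'
        rw [Finset.mem_biUnion] at hx
        obtain ⟨A, hA, hx⟩ := hx
        have h6 := (Finset.mem_filter.1 (Finset.mem_erase.1 hx).2).2
        exact (Finset.mem_filter.1 hx').2.2 A hA h6
    · intro A hA B hB hAB
      rw [Function.onFun, Finset.disjoint_left]
      intro x hx hx'
      rw [Finset.mem_erase, Finset.mem_filter] at hx hx'
      have h5 : x ∈ A ⊓ B := ⟨hx.2.2, hx'.2.2⟩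
      rw [hd A hA B hB hAB, Subgroup.mem_bot] at h5
      exact hx.1 h5
  set I : Finset (Fin (Nat.card G)) := Finset.univ.filter (fun i => ∃ A ∈ S, g i ∈ A) with hI
  by_cases hlt : ∑ A ∈ S, (Nat.card A - 1) < I.card
  · refine of_fiber S (fun A => Nat.card A) (fun A hA => good_comm A ?_) g I
      (fun i hi => (Finset.mem_filter.1 hi).2) hlt
    rintro ⟨x, hx⟩ ⟨y, hy⟩
    exact Subtype.ext (hc A hA x hx y hy)
  · apply of_hit g (fun i => decide (¬ ∃ A ∈ S, g i ∈ A))
    apply main (Nat.card G) G le_rfl E _ hPP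
    · intro x hx
      rw [List.mem_map] at hx
      obtain ⟨i, hi, rfl⟩ := hx
      rw [List.mem_filter] at hi
      rw [hE, Finset.mem_filter]
      refine ⟨Finset.mem_univ _, h1 i, ?_⟩
      have := of_decide_eq_true hi.2
      push Not at this
      exact this
    · rw [List.length_map]
      have h7 : ((List.finRange (Nat.card G)).filter
          (fun i => decide (¬ ∃ A ∈ S, g i ∈ A))).length = (Finset.univ \ I).card := by
        rw [← List.toFinset_card_of_nodup ((List.nodup_finRange _).filter _)]
        congr 1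
        ext i
        simp [hI]
      have h8 := Finset.card_sdiff_add_card_eq_card (Finset.subset_univ I)
      rw [Finset.card_fin] at h8
      rw [h7]
      omega

end Pool.Agent.TH106.PPClasses
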