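import Pool.Agent.Results.MP_94c9ac_al.IndexOrderCovers

/-!
Index order product-one subsequences: elements of prime power order.
-/

set_option autoImplicit false

namespace Pool.Agent.TH106.PrimePow

/-- the sum of the reciprocals of the orders of the terms -/
noncomputable def lw {G : Type*} [Group G] (l : List G) : ℚ :=
  (l.map (fun x => (1 : ℚ) / (orderOf x : ℚ))).sum

/-- there is a nonempty subsequence of weight at most one with product one -/
def Hit {G : Type*} [Group G] (S : List G) : Prop :=
  ∃ l : List G, l.Sublist S ∧ l ≠ [] ∧ l.prod = 1 ∧ lw l ≤ 1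

lemma Hit.mono {G : Type*} [Group G] {S T : List G} (h : Hit S) (hs : S.Sublist T) : Hit T := by
  obtain ⟨l, h1, h2⟩ := h
  exact ⟨l, h1.trans hs, h2⟩

lemma lw_append {G : Type*} [Group G] (l l' : List G) : lw (l ++ l') = lw l + lw l' := by
  simp [lw]

lemma lw_nonneg {G : Type*} [Group G] (l : List G) : 0 ≤ lw l := by
  unfold lw
  apply List.sum_nonneg
  intro x hx
  rw [List.mem_map] at hx
  obtain ⟨y, -, rfl⟩ := hx
  positivity

/-- cutting a long list into blocks -/
lemma blocks {G : Type*} [Group G] (Ω : Subgroup G) (w : ℚ) (Q : G → Prop) (N : ℕ)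
    (hN : ∀ B : List G, (∀ x ∈ B, Q x) → B.length = N →
      ∃ l : List G, l.Sublist B ∧ l ≠ [] ∧ l.prod ∈ Ω ∧ lw l ≤ w) (m : ℕ) :
    ∀ S : List G, (∀ x ∈ S, Q x) → m * N ≤ S.length →
      ∃ ls : List (List G), ls.length = m ∧ (∀ l ∈ ls, l ≠ [] ∧ l.prod ∈ Ω ∧ lw l ≤ w) ∧
        ls.flatten.Sublist S := by
  induction m with
  | zero => intro S _ _; exact ⟨[], rfl, by simp, by simp⟩
  | succ m ih =>
    intro S hS hlen
    have e1 : (m + 1) * N = m * N + N := by ring
    obtain ⟨l, h1, h2⟩ := hN (S.take N) (fun x hx => hS x (List.mem_of_mem_take hx))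
      (by rw [List.length_take]; omega)
    obtain ⟨ls, h3, h4, h5⟩ := ih (S.drop N) (fun x hx => hS x (List.mem_of_mem_drop hx))
      (by rw [List.length_drop]; omega)
    refine ⟨l :: ls, by simp [h3], ?_, ?_⟩
    · intro l' hl'
      rcases List.mem_cons.1 hl' with rfl | h
      · exact h2
      · exact h4 l' h
    · rw [List.flatten_cons]
      have := h1.append h5
      rwa [List.take_append_drop] at this

lemma lw_flatten {G : Type*} [Group G] (w : ℚ) (ls : List (List G)) (h : ∀ l ∈ ls, lw l ≤ w) :
    lw ls.flatten ≤ ls.length * w := by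
  induction ls with
  | nil => simp [lw]
  | cons a ls ih =>
    rw [List.flatten_cons, lw_append, List.length_cons]
    have h1 := h a List.mem_cons_self
    have h2 := ih (fun l hl => h l (List.mem_cons_of_mem _ hl))
    push_cast
    linarith

/-- `p` consecutive blocks with products in a group of order `p` -/
lemma hit_of_blocks {G : Type*} [Group G] (Ω : Subgroup G) [Finite Ω] (p : ℕ) (hp : 0 < p)
    (hΩ : Nat.card Ω = p) (ls : List (List G)) (hl : ls.length = p)
    (h : ∀ l ∈ ls, l ≠ [] ∧ l.prod ∈ Ω ∧ lw l ≤ 1 / (p : ℚ)) : Hit ls.flatten := by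
  classical
  have hmem : ∀ ls' : List (List G), (∀ l ∈ ls', l ∈ ls) → ls'.flatten.prod ∈ Ω := by
    intro ls' h'
    rw [List.prod_flatten]
    apply Subgroup.list_prod_mem
    intro x hx
    rw [List.mem_map] at hx
    obtain ⟨l, hl', rfl⟩ := hx
    exact (h l (h' l hl')).2.1
  have : Fintype Ω := Fintype.ofFinite Ω
  have hlt : Fintype.card Ω < Fintype.card (Fin (p + 1)) := by
    rw [Fintype.card_fin, ← Nat.card_eq_fintype_card, hΩ]
    omega
  obtain ⟨a, b, hab, hf⟩ := Fintype.exists_ne_map_eq_of_card_lt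
    (fun a : Fin (p + 1) => (⟨(ls.take a).flatten.prod,
      hmem _ (fun l hl => List.mem_of_mem_take hl)⟩ : Ω)) hlt
  have hf' : (ls.take a).flatten.prod = (ls.take b).flatten.prod := congrArg Subtype.val hf
  obtain ⟨i, j, hij, hjp, hQ⟩ : ∃ i j : ℕ, i < j ∧ j ≤ p ∧
      (ls.take i).flatten.prod = (ls.take j).flatten.prod := by
    rcases lt_or_gt_of_ne (fun h => hab (Fin.ext h) : (a : ℕ) ≠ b) with h | h
    · exact ⟨a, b, h, by omega, hf'⟩
    · exact ⟨b, a, h, by omega, hf'.symm⟩
  have hsplit : ls.take j = ls.take i ++ (ls.take j).drop i := by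
    conv_lhs => rw [← List.take_append_drop i (ls.take j)]
    rw [List.take_take, Nat.min_eq_left hij.le]
  set M := (ls.take j).drop i with hM
  have hMls : ∀ l ∈ M, l ∈ ls := fun l hl => List.mem_of_mem_take (List.mem_of_mem_drop hl)
  have hMlen : M.length = j - i := by
    rw [hM, List.length_drop, List.length_take, hl, Nat.min_eq_left hjp]
  refine ⟨M.flatten, ?_, ?_, ?_, ?_⟩
  · exact ((List.drop_sublist i (ls.take j)).trans (List.take_sublist j ls)).flatten
  · intro h0
    rw [List.flatten_eq_nil_iff] at h0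
    have hne : M ≠ [] := by
      intro h1
      rw [h1] at hMlen
      simp at hMlen
      omega
    obtain ⟨l, hl'⟩ := List.exists_mem_of_ne_nil M hne
    exact (h l (hMls l hl')).1 (h0 l hl')
  · rw [hsplit, List.flatten_append, List.prod_append] at hQ
    exact (left_eq_mul.1 hQ)
  · have h1 := lw_flatten (1 / (p : ℚ)) M (fun l hl' => (h l (hMls l hl')).2.2)
    have h2 : ((M.length : ℕ) : ℚ) ≤ p := by
      rw [hMlen]
      exact_mod_cast (by omega : j - i ≤ p)
    have hp' : (0 : ℚ) < p := by exact_mod_cast hp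
    refine h1.trans ?_
    rw [mul_one_div]
    exact (div_le_one hp').2 h2

/-- elements of prime power order, closed under nontrivial powers -/
def PP {G : Type*} [Group G] (E : Finset G) : Prop :=
  ∀ x ∈ E, (x ≠ 1 ∧ ∃ p k : ℕ, p.Prime ∧ orderOf x = p ^ k) ∧ ∀ i : ℕ, x ^ i ≠ 1 → x ^ i ∈ E

/-- the step: a normal subgroup of prime order contained in all cyclic subgroups -/
lemma step {C : Type*} [Group C] [Finite C] (Ω : Subgroup C) [Ω.Normal] (p : ℕ) (hp : p.Prime)
    (hΩ : Nat.card Ω = p) (E : Finset C)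
    (h1 : ∀ x ∈ E, x ≠ 1 ∧ p ∣ orderOf x ∧ ∃ k : ℕ, orderOf x = p ^ k)
    (h2 : ∀ x ∈ E, x ^ (orderOf x / p) ∈ Ω)
    (h3 : ∀ x ∈ E, ∀ i : ℕ, x ^ i ≠ 1 → x ^ i ∈ E)
    (ih : ∀ (E' : Finset (C ⧸ Ω)) (S' : List (C ⧸ Ω)), PP E' → (∀ x ∈ S', x ∈ E') →
      E'.card < S'.length → Hit S')
    (S : List C) (hS : ∀ x ∈ S, x ∈ E) (hlen : E.card < S.length) : Hit S := by
  classical
  have hfin : Finite Ω := inferInstance
  have : Fact p.Prime := ⟨hp⟩
  set π : C →* C ⧸ Ω := QuotientGroup.mk' Ω with hπ
  have hker : ∀ x : C, π x = 1 ↔ x ∈ Ω := fun x => by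
    rw [hπ, QuotientGroup.mk'_apply, QuotientGroup.eq_one_iff]
  -- nontrivial element of Ω generates
  have hgen : ∀ x ∈ E, ∀ ω ∈ Ω, ∃ j : ℕ, (x ^ (orderOf x / p)) ^ j = ω := by
    intro x hx ω hω
    have hd : x ^ (orderOf x / p) ≠ 1 := by
      intro h
      have h4 := orderOf_dvd_of_pow_eq_one h
      have h5 := Nat.le_of_dvd (Nat.div_pos (Nat.le_of_dvd (orderOf_pos x) (h1 x hx).2.1)
        hp.pos) h4
      have h6 := Nat.div_lt_self (orderOf_pos x) hp.one_lt
      omega
    have hne : (⟨x ^ (orderOf x / p), h2 x hx⟩ : Ω) ≠ 1 := by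
      intro h
      exact hd (congrArg Subtype.val h)
    have := mem_powers_of_prime_card (g' := (⟨ω, hω⟩ : Ω)) hΩ hne
    obtain ⟨j, hj⟩ := this
    exact ⟨j, congrArg Subtype.val hj⟩
  have hEne : E.Nonempty := by
    rcases S with _ | ⟨a, S⟩
    · simp at hlen
    · exact ⟨a, hS a List.mem_cons_self⟩
  have h1E : (1 : C) ∉ E := fun h => (h1 1 h).1 rfl
  set F := insert 1 E with hF
  have hFcard : F.card = E.card + 1 := Finset.card_insert_of_notMem h1E
  have hclosed : ∀ x ∈ F, ∀ ω ∈ Ω, x * ω ∈ F := by
    intro x hx ω hω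
    rw [hF, Finset.mem_insert] at hx
    rcases hx with rfl | hx
    · obtain ⟨x0, hx0⟩ := hEne
      obtain ⟨j, hj⟩ := hgen x0 hx0 ω hω
      rw [one_mul, ← hj, ← pow_mul, hF, Finset.mem_insert]
      by_cases h : x0 ^ (orderOf x0 / p * j) = 1
      · exact Or.inl h
      · exact Or.inr (h3 x0 hx0 _ h)
    · obtain ⟨j, hj⟩ := hgen x hx ω hω
      rw [← hj, ← pow_mul, ← pow_succ', hF, Finset.mem_insert]
      by_cases h : x ^ (orderOf x / p * j + 1) = 1
      · exact Or.inl h
      · exact Or.inr (h3 x hx _ h)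
  set E' := (E.image π).erase 1 with hE'
  have hFim : (F.image π).card = E'.card + 1 := by
    have : F.image π = insert 1 E' := by
      rw [hF, Finset.image_insert, map_one, hE']
      ext y
      simp only [Finset.mem_insert, Finset.mem_erase]
      tauto
    rw [this, Finset.card_insert_of_notMem]
    rw [hE']
    simp
  have hcount : p * (E'.card + 1) ≤ E.card + 1 := by
    rw [← hFim, ← hFcard]
    apply Finset.mul_card_image_le_card
    intro y hy
    rw [Finset.mem_image] at hy
    obtain ⟨x, hx, rfl⟩ := hy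
    have : Fintype Ω := Fintype.ofFinite Ω
    have h5 : p = (Finset.univ.image (fun ω : Ω => x * (ω : C))).card := by
      rw [Finset.card_image_of_injective _ (fun a b hab => Subtype.ext (mul_left_cancel hab)),
        Finset.card_univ, ← Nat.card_eq_fintype_card, hΩ]
    rw [h5]
    apply Finset.card_le_card
    intro z hz
    rw [Finset.mem_image] at hz
    obtain ⟨ω, -, rfl⟩ := hz
    rw [Finset.mem_filter]
    refine ⟨hclosed x hx ω ω.2, ?_⟩
    rw [map_mul, (hker _).2 ω.2, mul_one]
  -- weights
  have hw : ∀ x ∈ E, p * orderOf (π x) ≤ orderOf x := by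
    intro x hx
    have hpd := (h1 x hx).2.1
    have h6 : orderOf (π x) ∣ orderOf x / p := by
      apply orderOf_dvd_of_pow_eq_one
      rw [← map_pow]
      exact (hker _).2 (h2 x hx)
    have h7 : 0 < orderOf x / p :=
      Nat.div_pos (Nat.le_of_dvd (orderOf_pos x) hpd) hp.pos
    calc p * orderOf (π x) ≤ p * (orderOf x / p) := Nat.mul_le_mul_left _ (Nat.le_of_dvd h7 h6)
      _ = orderOf x := Nat.mul_div_cancel' hpd
  have hp0 : (0 : ℚ) < p := by exact_mod_cast hp.pos
  have hlw : ∀ l : List C, (∀ x ∈ l, x ∈ E) → lw l ≤ 1 / (p : ℚ) * lw (l.map π) := by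
    intro l
    induction l with
    | nil => intro _; simp [lw]
    | cons a l ihl =>
      intro hl
      have h8 := ihl (fun x hx => hl x (List.mem_cons_of_mem _ hx))
      have h9 := hw a (hl a List.mem_cons_self)
      have e1 : lw (a :: l) = 1 / (orderOf a : ℚ) + lw l := by simp [lw]
      have e2 : lw ((a :: l).map π) = 1 / (orderOf (π a) : ℚ) + lw (l.map π) := by simp [lw]
      rw [e1, e2, mul_add]
      have h10 : (1 : ℚ) / (orderOf a : ℚ) ≤ 1 / (p : ℚ) * (1 / (orderOf (π a) : ℚ)) := by
        rw [one_div_mul_one_div]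
        apply one_div_le_one_div_of_le
        · have : 0 < orderOf (π a) := orderOf_pos _
          have : (0 : ℚ) < orderOf (π a) := by exact_mod_cast this
          positivity
        · exact_mod_cast h9
      linarith
  have hPP : PP E' := by
    intro y hy
    rw [hE', Finset.mem_erase, Finset.mem_image] at hy
    obtain ⟨hy1, x, hx, rfl⟩ := hy
    obtain ⟨-, -, k, hk⟩ := h1 x hx
    refine ⟨⟨hy1, p, ?_⟩, ?_⟩
    · have : orderOf (π x) ∣ p ^ k := hk ▸ orderOf_map_dvd π x
      obtain ⟨j, -, hj⟩ := (Nat.dvd_prime_pow hp).1 this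
      exact ⟨j, hp, hj⟩
    · intro i hi
      rw [hE', Finset.mem_erase, Finset.mem_image]
      refine ⟨hi, x ^ i, h3 x hx i ?_, map_pow _ _ _⟩
      intro h
      rw [← map_pow, h, map_one] at hi
      exact hi rfl
  obtain ⟨ls, k1, k2, k3⟩ := blocks Ω (1 / (p : ℚ)) (fun x => x ∈ E) (E'.card + 1) (by
    intro B hB hBl
    by_cases hex : ∃ x ∈ B, x ∈ Ω
    · obtain ⟨x, hx, hxΩ⟩ := hex
      refine ⟨[x], List.singleton_sublist.2 hx, by simp, by simpa using hxΩ, ?_⟩
      have h11 : p * 1 ≤ orderOf x := by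
        have := hw x (hB x hx)
        rwa [(hker x).2 hxΩ, orderOf_one] at this
      simp only [lw, List.map_cons, List.map_nil, List.sum_cons, List.sum_nil, add_zero]
      apply one_div_le_one_div_of_le hp0
      exact_mod_cast (by simpa using h11)
    · push Not at hex
      obtain ⟨l', m1, m2, m3, m4⟩ := ih E' (B.map π) hPP (by
        intro y hy
        rw [List.mem_map] at hy
        obtain ⟨x, hx, rfl⟩ := hy
        rw [hE', Finset.mem_erase]
        exact ⟨fun h => hex x hx ((hker x).1 h), Finset.mem_image_of_mem _ (hB x hx)⟩)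
        (by rw [List.length_map, hBl]; omega)
      rw [List.sublist_map_iff] at m1
      obtain ⟨l, n1, rfl⟩ := m1
      refine ⟨l, n1, fun h => m2 (by rw [h]; rfl), ?_, ?_⟩
      · rw [← hker, map_list_prod]
        exact m3
      · refine (hlw l (fun x hx => hB x (n1.subset hx))).trans ?_
        have : (0 : ℚ) ≤ 1 / (p : ℚ) := by positivity
        calc 1 / (p : ℚ) * lw (l.map π) ≤ 1 / (p : ℚ) * 1 := mul_le_mul_of_nonneg_left m4 this
          _ = 1 / (p : ℚ) := mul_one _) p S hS (by omega)
  exact (hit_of_blocks Ω p hp.pos hΩ ls k1 k2).mono k3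

/-- pigeonhole for lists -/
lemma exists_fiber {α β : Type*} [DecidableEq α] [DecidableEq β] (f : α → β) (E : Finset α)
    (S : List α) (hS : ∀ x ∈ S, x ∈ E) (hlen : E.card < S.length) :
    ∃ b, (E.filter (fun x => f x = b)).card < (S.filter (fun x => decide (f x = b))).length := by
  by_contra hcon
  push Not at hcon
  have h1 : E.card = ∑ b ∈ E.image f, (E.filter (fun x => f x = b)).card :=
    Finset.card_eq_sum_card_image f E
  have h2 : ∀ T : List α, (∀ x ∈ T, x ∈ E) →
      T.length = ∑ b ∈ E.image f, (T.filter (fun x => decide (f x = b))).length := by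
    intro T
    induction T with
    | nil => intro _; simp
    | cons a T ih =>
      intro hT
      have h3 := ih (fun x hx => hT x (List.mem_cons_of_mem _ hx))
      have h4 : ∀ b ∈ E.image f, ((a :: T).filter (fun x => decide (f x = b))).length =
          (T.filter (fun x => decide (f x = b))).length + if f a = b then 1 else 0 := by
        intro b _
        rw [List.filter_cons]
        by_cases h : f a = b
        · simp [h]
        · simp [h]
      rw [Finset.sum_congr rfl h4, Finset.sum_add_distrib, ← h3, List.length_cons,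
        Finset.sum_ite_eq, if_pos (Finset.mem_image_of_mem f (hT a List.mem_cons_self))]
  have h5 := h2 S hS
  have h6 : ∑ b ∈ E.image f, (S.filter (fun x => decide (f x = b))).length ≤
      ∑ b ∈ E.image f, (E.filter (fun x => f x = b)).card :=
    Finset.sum_le_sum fun b _ => hcon b
  omega

/-- index order product-one subsequences for elements of prime power order -/
theorem main (n : ℕ) : ∀ (G : Type*) [Group G] [Finite G], Nat.card G ≤ n →
    ∀ (E : Finset G) (S : List G), PP E → (∀ x ∈ S, x ∈ E) → E.card < S.length → Hit S := by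
  induction n with
  | zero =>
    intro G _ _ h
    have : 0 < Nat.card G := Nat.card_pos
    omega
  | succ n ih =>
    intro G _ _ hn E S hE hS hlen
    classical
    let om : G → Subgroup G := fun x => Subgroup.zpowers (x ^ (orderOf x / (orderOf x).minFac))
    obtain ⟨Ω, hΩ⟩ := exists_fiber om E S hS hlen
    set E1 := E.filter (fun x => om x = Ω) with hE1
    set S1 := S.filter (fun x => decide (om x = Ω)) with hS1
    have hS1E : ∀ x ∈ S1, x ∈ E1 := by
      intro x hx
      rw [hS1, List.mem_filter] at hx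
      rw [hE1, Finset.mem_filter]
      exact ⟨hS x hx.1, by simpa using hx.2⟩
    -- a witness
    obtain ⟨x0, hx0⟩ : ∃ x0, x0 ∈ E1 := by
      rcases hS1' : S1 with _ | ⟨a, T⟩
      · rw [hS1'] at hΩ; simp at hΩ
      · exact ⟨a, hS1E a (by rw [hS1']; exact List.mem_cons_self)⟩
    have key : ∀ x ∈ E1, ∃ p k : ℕ, p.Prime ∧ orderOf x = p ^ (k + 1) ∧
        (orderOf x).minFac = p ∧ Nat.card Ω = p ∧ x ^ (orderOf x / p) ∈ Ω := by
      intro x hx
      rw [hE1, Finset.mem_filter] at hx
      obtain ⟨⟨hx1, p, k, hp, hk⟩, -⟩ := hE x hx.1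
      obtain ⟨k, rfl⟩ : ∃ k', k = k' + 1 := by
        refine ⟨k - 1, ?_⟩
        have : k ≠ 0 := by
          rintro rfl
          rw [pow_zero, orderOf_eq_one_iff] at hk
          exact hx1 hk
        omega
      have hm : (orderOf x).minFac = p := by
        rw [hk]
        exact Nat.Prime.pow_minFac hp (by omega)
      refine ⟨p, k, hp, hk, hm, ?_, ?_⟩
      · rw [← hx.2]
        show Nat.card (Subgroup.zpowers (x ^ (orderOf x / (orderOf x).minFac))) = p
        rw [Nat.card_zpowers, hm]
        have hd : p ∣ orderOf x := by rw [hk]; exact dvd_pow_self p (by omega)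
        rw [orderOf_pow_of_dvd (Nat.div_pos (Nat.le_of_dvd (orderOf_pos x) hd) hp.pos).ne'
          (Nat.div_dvd_of_dvd hd)]
        exact Nat.div_div_self hd (orderOf_pos x).ne'
      · rw [← hx.2, ← hm]
        exact Subgroup.mem_zpowers _
    obtain ⟨p, -, hp, -, -, hΩp, -⟩ := key x0 hx0
    have key' : ∀ x ∈ E1, ∃ k : ℕ, orderOf x = p ^ (k + 1) ∧ x ^ (orderOf x / p) ∈ Ω ∧
        om x = Ω := by
      intro x hx
      obtain ⟨q, k, hq, hk, hm, hc, hmem⟩ := key x hx
      obtain rfl : p = q := by rw [← hΩp, hc]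
      exact ⟨k, hk, hmem, (Finset.mem_filter.1 hx).2⟩
    -- the centralizer
    set C := Subgroup.centralizer (Ω : Set G) with hC
    have hE1C : ∀ x ∈ E1, x ∈ C := by
      intro x hx
      obtain ⟨k, hk, hmem, hom⟩ := key' x hx
      rw [hC, Subgroup.mem_centralizer_iff]
      intro y hy
      have hy' : y ∈ om x := by rw [hom]; exact hy
      obtain ⟨i, rfl⟩ := hy'
      show (x ^ (orderOf x / (orderOf x).minFac)) ^ i * x = x * (x ^ (orderOf x / (orderOf x).minFac)) ^ i
      exact (((Commute.refl x).pow_left _).zpow_left i).eq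
    have hΩC : Ω ≤ C := by
      intro y hy
      obtain ⟨k, hk, hmem, hom⟩ := key' x0 hx0
      have hy' : y ∈ om x0 := by rw [hom]; exact hy
      obtain ⟨i, rfl⟩ := hy'
      exact C.zpow_mem (C.pow_mem (hE1C x0 hx0) _) i
    set Ω' := Ω.subgroupOf C with hΩ'
    have hnorm : Ω'.Normal := by
      constructor
      intro y hy c
      rw [hΩ', Subgroup.mem_subgroupOf] at hy ⊢
      have h1 := (Subgroup.mem_centralizer_iff.1 c.2) (y : G) hy
      have h2 : ((c * y * c⁻¹ : C) : G) = y := by
        push_cast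
        rw [← h1, mul_assoc, mul_inv_cancel, mul_one]
      rw [h2]
      exact hy
    have hΩ'card : Nat.card Ω' = p := by
      rw [← hΩp]
      exact Nat.card_congr (Subgroup.subgroupOfEquivOfLe hΩC).toEquiv
    have hCcard : Nat.card (C ⧸ Ω') ≤ n := by
      have h1 := Subgroup.card_eq_card_quotient_mul_card_subgroup Ω'
      rw [hΩ'card] at h1
      have h2 : Nat.card C ≤ Nat.card G := Subgroup.card_le_card_group C
      have h3 : 0 < Nat.card (C ⧸ Ω') := Nat.card_pos
      have h4 := hp.two_le
      nlinarith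
    -- lift the list
    have hlift : ∀ T : List G, (∀ x ∈ T, x ∈ C) → ∃ T' : List C, T'.map Subtype.val = T := by
      intro T
      induction T with
      | nil => intro _; exact ⟨[], rfl⟩
      | cons a T ihT =>
        intro hT
        obtain ⟨T', h⟩ := ihT (fun x hx => hT x (List.mem_cons_of_mem _ hx))
        exact ⟨⟨a, hT a List.mem_cons_self⟩ :: T', by simp [h]⟩
    obtain ⟨S2, hS2⟩ := hlift S1 (fun x hx => hE1C x (hS1E x hx))
    have : Fintype C := Fintype.ofFinite C
    set E2 : Finset C := Finset.univ.filter (fun x : C => (x : G) ∈ E1) with hE2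
    have hE2card : E2.card ≤ E1.card := by
      apply Finset.card_le_card_of_injOn (fun x : C => (x : G))
      · intro x hx
        have hx' : x ∈ E2 := hx
        rw [hE2, Finset.mem_filter] at hx'
        exact hx'.2
      · intro x _ y _ h
        exact Subtype.ext h
    have hpow : ∀ x ∈ E1, ∀ i : ℕ, x ^ i ≠ 1 → x ^ i ∈ E1 := by
      intro x hx i hi
      have hxE := (Finset.mem_filter.1 hx).1
      rw [hE1, Finset.mem_filter]
      refine ⟨(hE x hxE).2 i hi, ?_⟩
      obtain ⟨k, hk, hmem, hom⟩ := key' x hx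
      have hdvd : orderOf (x ^ i) ∣ p ^ (k + 1) := hk ▸ orderOf_pow_dvd i
      obtain ⟨j, -, hj⟩ := (Nat.dvd_prime_pow hp).1 hdvd
      have hj0 : j ≠ 0 := by
        rintro rfl
        rw [pow_zero, orderOf_eq_one_iff] at hj
        exact hi hj
      have hm : (orderOf (x ^ i)).minFac = p := by
        rw [hj]
        exact Nat.Prime.pow_minFac hp hj0
      have hd : p ∣ orderOf (x ^ i) := by rw [hj]; exact dvd_pow_self p hj0
      -- both are subgroups of order p of the cyclic group generated by x
      have hcard : Nat.card (om (x ^ i)) = p := by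
        show Nat.card (Subgroup.zpowers ((x ^ i) ^ (orderOf (x ^ i) / (orderOf (x ^ i)).minFac))) = p
        rw [Nat.card_zpowers, hm,
          orderOf_pow_of_dvd (Nat.div_pos (Nat.le_of_dvd (orderOf_pos _) hd) hp.pos).ne'
          (Nat.div_dvd_of_dvd hd)]
        exact Nat.div_div_self hd (orderOf_pos _).ne'
      have hle1 : om (x ^ i) ≤ Subgroup.zpowers x := by
        show Subgroup.zpowers _ ≤ _
        rw [Subgroup.zpowers_le]
        exact Subgroup.pow_mem _ (Subgroup.pow_mem _ (Subgroup.mem_zpowers x) _) _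
      have hle2 : Ω ≤ Subgroup.zpowers x := by
        rw [← hom]
        show Subgroup.zpowers _ ≤ _
        rw [Subgroup.zpowers_le]
        exact Subgroup.pow_mem _ (Subgroup.mem_zpowers x) _
      have hFG : Fintype G := Fintype.ofFinite G
      have hcyc : IsCyclic (Subgroup.zpowers x) :=
        Pool.Agent.Results.MP_94c9ac_al.Q1AllGroups.Grp.zpowers_cyclic x
      apply le_antisymm
      · exact Pool.Agent.Results.MP_94c9ac_al.Q1AllGroups.Grp.cyc_le_of_dvd hcyc hle1 hle2
          (by rw [hcard, hΩp])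
      · exact Pool.Agent.Results.MP_94c9ac_al.Q1AllGroups.Grp.cyc_le_of_dvd hcyc hle2 hle1
          (by rw [hcard, hΩp])
    have hhit : Hit S2 := by
      refine step Ω' p hp hΩ'card E2 ?_ ?_ ?_ (fun E' S' h1 h2 h3 => ih (C ⧸ Ω') hCcard E' S' h1 h2 h3)
        S2 ?_ ?_
      · intro x hx
        have hx' := (Finset.mem_filter.1 hx).2
        obtain ⟨k, hk, hmem, hom⟩ := key' _ hx'
        rw [Subgroup.orderOf_coe] at hk
        refine ⟨?_, ?_, k + 1, hk⟩
        · rintro rfl
          exact (hE _ (Finset.mem_filter.1 hx').1).1.1 rfl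
        · rw [hk]; exact dvd_pow_self p (by omega)
      · intro x hx
        have hx' := (Finset.mem_filter.1 hx).2
        obtain ⟨k, hk, hmem, hom⟩ := key' _ hx'
        rw [hΩ', Subgroup.mem_subgroupOf]
        rw [Subgroup.orderOf_coe] at hmem
        push_cast
        exact hmem
      · intro x hx i hi
        have hx' := (Finset.mem_filter.1 hx).2
        rw [hE2, Finset.mem_filter]
        refine ⟨Finset.mem_univ _, ?_⟩
        push_cast
        apply hpow _ hx'
        intro h
        apply hi
        apply Subtype.ext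
        push_cast
        exact h
      · intro x hx
        rw [hE2, Finset.mem_filter]
        refine ⟨Finset.mem_univ _, hS1E _ ?_⟩
        rw [← hS2]
        exact List.mem_map_of_mem hx
      · have : S2.length = S1.length := by rw [← hS2, List.length_map]
        omega
    obtain ⟨l, m1, m2, m3, m4⟩ := hhit
    refine ⟨l.map Subtype.val, ?_, ?_, ?_, ?_⟩
    · have := m1.map Subtype.val
      rw [hS2] at this
      exact this.trans List.filter_sublist
    · intro h
      exact m2 (List.map_eq_nil_iff.1 h)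
    · have h1 := congrArg Subtype.val m3
      rw [← Subgroup.coe_subtype, map_list_prod] at h1
      exact h1
    · refine le_trans (le_of_eq ?_) m4
      unfold lw
      rw [List.map_map]
      congr 1
      apply List.map_congr_left
      intro x _
      show (1 : ℚ) / (orderOf (x : G) : ℚ) = 1 / (orderOf x : ℚ)
      rw [Subgroup.orderOf_coe]

end Pool.Agent.TH106.PrimePow
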